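import Pool.Agent.Lib.MP_98022b_h71.Defs

/-!
# `K ⋊ ℤ` as a directed colimit of HNN extensions along a directed family of subgroups
-/

set_option autoImplicit false

namespace Pool.Agent.HN

open SemidirectProduct Pool.Agent.FJ

variable {P : ∀ (G : Type) [Group G], Prop}

variable {K : Type} [Group K] (α : MulAut K) (D : Finset K → Subgroup K)

/-- A directed family of subgroups, which is compatible with `α`. -/
class Dom : Prop where
  mono : ∀ {S T : Finset K}, S ≤ T → D S ≤ D T
  mem : ∀ {S : Finset K} {k : K}, k ∈ S → k ∈ D S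
  ex : ∀ S : Finset K, ∃ T : Finset K, S ≤ T ∧ D S ⊔ (D S).map α.toMonoidHom ≤ D T
  ex' : ∀ S : Finset K, ∃ T : Finset K, S ≤ T ∧
    D S ⊔ (D S).map α.toMonoidHom ≤ (D T).map α.toMonoidHom

/-- the base group -/
def base (S : Finset K) : Subgroup K := D S ⊔ (D S).map α.toMonoidHom

theorem dom_le_base (S : Finset K) : D S ≤ base α D S := le_sup_left

theorem map_le_base (S : Finset K) : (D S).map α.toMonoidHom ≤ base α D S := le_sup_right

theorem base_mono [Dom α D] {S T : Finset K} (h : S ≤ T) : base α D S ≤ base α D T :=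
  sup_le_sup (Dom.mono α h) (Subgroup.map_mono (Dom.mono α h))

/-- the restricted isomorphism -/
noncomputable def phi (S : Finset K) :
    ((D S).subgroupOf (base α D S)) ≃* (((D S).map α.toMonoidHom).subgroupOf (base α D S)) :=
  ((Subgroup.subgroupOfEquivOfLe (dom_le_base α D S)).trans
    ((D S).equivMapOfInjective α.toMonoidHom α.injective)).trans
    (Subgroup.subgroupOfEquivOfLe (map_le_base α D S)).symm

theorem phi_apply (S : Finset K) (a : (D S).subgroupOf (base α D S)) :
    ((phi α D S a : base α D S) : K) = α ((a : base α D S) : K) := rfl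

/-- A group with the universal property of the HNN extension of `base S` along the restriction of
`α` to `D S`. -/
structure Data (S : Finset K) where
  /-- the group -/
  G : Type
  [grp : Group G]
  /-- the base group -/
  o : base α D S →* G
  /-- the stable letter -/
  t : G
  rel : ∀ k k' : base α D S, (k : K) ∈ D S → (k' : K) = α k → t * o k = o k' * t
  lift : ∀ {H : Type} [Group H] (f : base α D S →* H) (x : H),
    (∀ k k' : base α D S, (k : K) ∈ D S → (k' : K) = α k → x * f k = f k' * x) →
    ∃ F : G →* H, (∀ k, F (o k) = f k) ∧ F t = x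
  hom_ext : ∀ {H : Type} [Group H] (F F' : G →* H), (∀ k, F (o k) = F' (o k)) → F t = F' t →
    F = F'
  ind : ∀ (motive : G → Prop) (x : G), (∀ g, motive (o g)) → motive t →
    (∀ x y, motive x → motive y → motive (x * y)) → (∀ x, motive x → motive x⁻¹) → motive x
  mem : ∀ (P : ∀ (G : Type) [Group G], Prop), P (HNNExtension (base α D S)
    ((D S).subgroupOf (base α D S)) (((D S).map α.toMonoidHom).subgroupOf (base α D S))
    (phi α D S)) → P G

theorem nonempty_data (S : Finset K) : Nonempty (Data α D S) := by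
  refine ⟨{
    G := HNNExtension (base α D S) _ _ (phi α D S)
    o := HNNExtension.of
    t := HNNExtension.t
    rel := fun k k' hk hk' => ?_
    lift := fun f x h => ⟨HNNExtension.lift f x fun a => h _ _ a.2 (phi_apply α D S a),
      fun k => HNNExtension.lift_of _ _ _ _, HNNExtension.lift_t _ _ _⟩
    hom_ext := fun F F' h ht => HNNExtension.hom_ext (MonoidHom.ext h) ht
    ind := fun motive x of t mul inv =>
      HNNExtension.induction_on (motive := motive) x of t mul inv
    mem := fun P h => h }⟩
  have h := HNNExtension.t_mul_of (φ := phi α D S) ⟨k, hk⟩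
  have h2 : (phi α D S ⟨k, hk⟩ : base α D S) = k' := Subtype.ext (by rw [phi_apply, hk'])
  rw [h2] at h
  exact h

/-- the chosen HNN extension -/
noncomputable def dat (S : Finset K) : Data α D S := Classical.choice (nonempty_data α D S)

/-- the HNN extension of the base group -/
def GS (S : Finset K) : Type := (dat α D S).G

noncomputable instance (S : Finset K) : Group (GS α D S) := (dat α D S).grp

/-- the inclusion of the base group -/
noncomputable def ofS (S : Finset K) : base α D S →* GS α D S := (dat α D S).o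

/-- the stable letter -/
noncomputable def tS (S : Finset K) : GS α D S := (dat α D S).t

theorem tS_mul (S : Finset K) (k k' : base α D S) (hk : (k : K) ∈ D S) (hk' : (k' : K) = α k) :
    tS α D S * ofS α D S k = ofS α D S k' * tS α D S := (dat α D S).rel k k' hk hk'

theorem tS_inv_mul (S : Finset K) (k k' : base α D S) (hk : (k : K) ∈ D S)
    (hk' : (k' : K) = α k) : (tS α D S)⁻¹ * ofS α D S k' = ofS α D S k * (tS α D S)⁻¹ := by
  have h := tS_mul α D S k k' hk hk'
  rw [inv_mul_eq_iff_eq_mul, ← mul_assoc, h, mul_inv_cancel_right]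

theorem exists_liftS (S : Finset K) {G : Type} [Group G] (f : base α D S →* G) (x : G)
    (h : ∀ k k' : base α D S, (k : K) ∈ D S → (k' : K) = α k → x * f k = f k' * x) :
    ∃ F : GS α D S →* G, (∀ k, F (ofS α D S k) = f k) ∧ F (tS α D S) = x :=
  (dat α D S).lift f x h

/-- homomorphisms out of `GS` -/
noncomputable def liftS (S : Finset K) {G : Type} [Group G] (f : base α D S →* G) (x : G)
    (h : ∀ k k' : base α D S, (k : K) ∈ D S → (k' : K) = α k → x * f k = f k' * x) :
    GS α D S →* G := (exists_liftS α D S f x h).choose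

theorem liftS_of (S : Finset K) {G : Type} [Group G] (f : base α D S →* G) (x : G)
    (h : ∀ k k' : base α D S, (k : K) ∈ D S → (k' : K) = α k → x * f k = f k' * x)
    (k : base α D S) : liftS α D S f x h (ofS α D S k) = f k :=
  (exists_liftS α D S f x h).choose_spec.1 k

theorem liftS_t (S : Finset K) {G : Type} [Group G] (f : base α D S →* G) (x : G)
    (h : ∀ k k' : base α D S, (k : K) ∈ D S → (k' : K) = α k → x * f k = f k' * x) :
    liftS α D S f x h (tS α D S) = x :=
  (exists_liftS α D S f x h).choose_spec.2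

theorem hom_extS (S : Finset K) {G : Type} [Group G] {f g : GS α D S →* G}
    (h : ∀ k, f (ofS α D S k) = g (ofS α D S k)) (ht : f (tS α D S) = g (tS α D S)) : f = g :=
  (dat α D S).hom_ext f g h ht

theorem inductionS (S : Finset K) {motive : GS α D S → Prop} (x : GS α D S)
    (of : ∀ g, motive (ofS α D S g)) (t : motive (tS α D S))
    (mul : ∀ x y, motive x → motive y → motive (x * y))
    (inv : ∀ x, motive x → motive x⁻¹) : motive x :=
  (dat α D S).ind motive x of t mul inv

variable [Dom α D]

/-- the inclusion of base groups -/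
def inc (S T : Finset K) (h : S ≤ T) : base α D S →* base α D T :=
  Subgroup.inclusion (base_mono α D h)

theorem coe_inc (S T : Finset K) (h : S ≤ T) (k : base α D S) :
    ((inc α D S T h k : base α D T) : K) = k := by
  rw [inc, Subgroup.coe_inclusion]



/-- the structure maps -/
noncomputable def str (S T : Finset K) (h : S ≤ T) : GS α D S →* GS α D T :=
  liftS α D S ((ofS α D T).comp (inc α D S T h)) (tS α D T) (by
    intro k k' hk hk'
    rw [MonoidHom.comp_apply, MonoidHom.comp_apply]
    exact tS_mul α D T _ _ (by rw [coe_inc]; exact Dom.mono α h hk) (by rw [coe_inc, coe_inc]; exact hk'))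

theorem str_of (S T : Finset K) (h : S ≤ T) (x : base α D S) :
    str α D S T h (ofS α D S x) = ofS α D T (inc α D S T h x) := by
  rw [str, liftS_of, MonoidHom.comp_apply]

theorem str_t (S T : Finset K) (h : S ≤ T) : str α D S T h (tS α D S) = tS α D T :=
  liftS_t _ _ _ _ _ _

/-- the colimit group -/
abbrev Tor : Type := K ⋊[zpowersHom (MulAut K) α] Multiplicative ℤ

/-- the canonical maps -/
noncomputable def can (S : Finset K) : GS α D S →* Tor α :=
  liftS α D S (inl.comp (base α D S).subtype) (inr (Multiplicative.ofAdd (1 : ℤ))) (by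
    intro k k' hk hk'
    have h := inl_aut (φ := zpowersHom (MulAut K) α) (Multiplicative.ofAdd (1 : ℤ)) (k : K)
    simp only [zpowersHom_apply, toAdd_ofAdd, zpow_one] at h
    simp only [MonoidHom.comp_apply, Subgroup.coe_subtype, hk']
    rw [h, map_inv, inv_mul_cancel_right])

omit [Dom α D] in
theorem can_of (S : Finset K) (x : base α D S) : can α D S (ofS α D S x) = inl (x : K) := by
  rw [can, liftS_of, MonoidHom.comp_apply, Subgroup.coe_subtype]

omit [Dom α D] in
theorem can_t (S : Finset K) : can α D S (tS α D S) = inr (Multiplicative.ofAdd (1 : ℤ)) :=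
  liftS_t _ _ _ _ _ _

theorem str_self (S : Finset K) (x : GS α D S) : str α D S S le_rfl x = x := by
  have : str α D S S le_rfl = MonoidHom.id _ := by
    refine hom_extS α D S (fun k => ?_) ?_
    · rw [str_of, MonoidHom.id_apply]; exact congrArg _ (Subtype.ext (coe_inc α D _ _ _ _))
    · rw [str_t, MonoidHom.id_apply]
  rw [this, MonoidHom.id_apply]

theorem str_str (S T U : Finset K) (h : S ≤ T) (h' : T ≤ U) (x : GS α D S) :
    str α D T U h' (str α D S T h x) = str α D S U (h.trans h') x := by
  have : (str α D T U h').comp (str α D S T h) = str α D S U (h.trans h') := by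
    refine hom_extS α D S (fun k => ?_) ?_
    · rw [MonoidHom.comp_apply, str_of, str_of, str_of]
      exact congrArg _ (Subtype.ext (by rw [coe_inc, coe_inc, coe_inc]))
    · rw [MonoidHom.comp_apply, str_t, str_t, str_t]
  exact DFunLike.congr_fun this x

theorem can_str (S T : Finset K) (h : S ≤ T) (x : GS α D S) :
    can α D T (str α D S T h x) = can α D S x := by
  have : (can α D T).comp (str α D S T h) = can α D S := by
    refine hom_extS α D S (fun k => ?_) ?_
    · rw [MonoidHom.comp_apply, str_of, can_of, can_of, coe_inc]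
    · rw [MonoidHom.comp_apply, str_t, can_t, can_t]
  exact DFunLike.congr_fun this x

/-- moving the stable letter to the right -/
theorem t_mul (S : Finset K) (k : base α D S) : ∃ (T : Finset K) (h : S ≤ T) (k' : base α D T),
    tS α D T * str α D S T h (ofS α D S k) = ofS α D T k' * tS α D T := by
  obtain ⟨T, h, hT⟩ := Dom.ex (α := α) (D := D) S
  refine ⟨T, h, ⟨α k, map_le_base α D T ⟨k, hT k.2, rfl⟩⟩, ?_⟩
  rw [str_of]
  exact tS_mul α D T _ _ (by rw [coe_inc]; exact hT k.2) (by rw [coe_inc])

theorem t_inv_mul (S : Finset K) (k : base α D S) : ∃ (T : Finset K) (h : S ≤ T) (k' : base α D T),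
    (tS α D T)⁻¹ * str α D S T h (ofS α D S k) = ofS α D T k' * (tS α D T)⁻¹ := by
  obtain ⟨T, h, hT⟩ := Dom.ex' (α := α) (D := D) S
  obtain ⟨a, ha, hak⟩ := hT k.2
  refine ⟨T, h, ⟨a, dom_le_base α D T ha⟩, ?_⟩
  rw [str_of]
  exact tS_inv_mul α D T _ _ ha (by rw [coe_inc]; exact hak.symm)

theorem t_zpow_mul (n : ℤ) : ∀ (S : Finset K) (k : base α D S),
    ∃ (T : Finset K) (h : S ≤ T) (k' : base α D T),
    tS α D T ^ n * str α D S T h (ofS α D S k) = ofS α D T k' * tS α D T ^ n := by
  induction n using Int.induction_on with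
  | zero => exact fun S k => ⟨S, le_rfl, k, by rw [str_self, zpow_zero, one_mul, mul_one]⟩
  | succ n ih =>
    intro S k
    obtain ⟨T, h, k', hk'⟩ := t_mul α D S k
    obtain ⟨U, h', k'', hk''⟩ := ih T k'
    refine ⟨U, h.trans h', k'', ?_⟩
    have h1 := congrArg (str α D T U h') hk'
    rw [map_mul, map_mul, str_str, str_t] at h1
    rw [zpow_add_one, mul_assoc, h1, ← mul_assoc, hk'', mul_assoc]
  | pred n ih =>
    intro S k
    obtain ⟨T, h, k', hk'⟩ := t_inv_mul α D S k
    obtain ⟨U, h', k'', hk''⟩ := ih T k'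
    refine ⟨U, h.trans h', k'', ?_⟩
    have h1 := congrArg (str α D T U h') hk'
    rw [map_mul, map_mul, str_str, map_inv, str_t] at h1
    rw [zpow_sub_one, mul_assoc, h1, ← mul_assoc, hk'', mul_assoc]

/-- Every element becomes of the form `k t^n` in a later group. -/
theorem normal_form (S : Finset K) (x : GS α D S) : ∃ (T : Finset K) (h : S ≤ T) (k : base α D T)
    (n : ℤ), str α D S T h x = ofS α D T k * tS α D T ^ n := by
  induction x using inductionS with
  | of g => exact ⟨S, le_rfl, g, 0, by rw [str_self, zpow_zero, mul_one]⟩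
  | t => exact ⟨S, le_rfl, 1, 1, by rw [str_self, zpow_one, map_one, one_mul]⟩
  | mul x y hx hy =>
    classical
    obtain ⟨T₁, h₁, k₁, n₁, e₁⟩ := hx
    obtain ⟨T₂, h₂, k₂, n₂, e₂⟩ := hy
    obtain ⟨T₃, h₃, k₃, e₃⟩ := t_zpow_mul α D n₁ T₂ k₂
    let U := T₁ ∪ T₃
    have hU1 : T₁ ≤ U := Finset.subset_union_left
    have hU3 : T₃ ≤ U := Finset.subset_union_right
    refine ⟨U, h₁.trans hU1, inc α D T₁ U hU1 k₁ *
      inc α D T₃ U hU3 k₃, n₁ + n₂, ?_⟩
    have e₁' := congrArg (str α D T₁ U hU1) e₁
    rw [str_str, map_mul, str_of, map_zpow, str_t] at e₁'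
    have e₂' := congrArg (str α D T₂ U (h₃.trans hU3)) e₂
    rw [str_str, map_mul, map_zpow, str_t] at e₂'
    have e₃' := congrArg (str α D T₃ U hU3) e₃
    rw [map_mul, map_mul, map_zpow, str_t, str_str, str_of α D T₃] at e₃'
    rw [map_mul, e₁', e₂', map_mul, zpow_add]
    calc _ = ofS α D U (inc α D T₁ U hU1 k₁) *
          (tS α D U ^ n₁ * str α D T₂ U (h₃.trans hU3) (ofS α D T₂ k₂)) *
          tS α D U ^ n₂ := by simp only [mul_assoc]
      _ = _ := by rw [e₃']; simp only [mul_assoc]
  | inv x hx =>
    obtain ⟨T₁, h₁, k₁, n₁, e₁⟩ := hx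
    obtain ⟨T₃, h₃, k₃, e₃⟩ := t_zpow_mul α D (-n₁) T₁ k₁⁻¹
    refine ⟨T₃, h₁.trans h₃, k₃, -n₁, ?_⟩
    have e₁' := congrArg (str α D T₁ T₃ h₃) e₁
    rw [str_str, map_mul, map_zpow, str_t] at e₁'
    rw [map_inv, e₁', mul_inv_rev, ← zpow_neg, ← map_inv, ← map_inv, e₃]

theorem tor_mem (hP : IsFJClass P) (h : ∀ S : Finset K, P (GS α D S)) : P (Tor α) := by
  classical
  refine hP.colimit (ι := Finset K) (fun S => GS α D S) (fun S T h => str α D S T h)
    (fun S => can α D S) (str_self α D) (fun S T U h h' x => str_str α D S T U h h' x)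
    (fun S T h x => can_str α D S T h x) ?_ ?_ h
  · rintro ⟨k, n⟩
    refine ⟨{k}, ofS α D {k} ⟨k, dom_le_base α D _ (Dom.mem α (by simp))⟩ *
      tS α D {k} ^ (Multiplicative.toAdd n), ?_⟩
    rw [map_mul, can_of, map_zpow, can_t, ← map_zpow]
    rw [SemidirectProduct.mk_eq_inl_mul_inr]
    congr 2
    rw [← ofAdd_zsmul]
    simp
  · intro S x hx
    obtain ⟨T, h, k, n, e⟩ := normal_form α D S x
    refine ⟨T, h, ?_⟩
    have h1 : can α D T (str α D S T h x) = 1 := by rw [can_str, hx]
    rw [e, map_mul, can_of, map_zpow, can_t, ← map_zpow] at h1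
    have h2 := congrArg SemidirectProduct.right h1
    have h3 := congrArg SemidirectProduct.left h1
    simp only [mul_right, right_inl, right_inr, one_mul, one_right] at h2
    simp only [mul_left, left_inl, left_inr, map_one, mul_one, one_left] at h3
    have h4 : n = 0 := by
      rw [← ofAdd_zsmul] at h2
      have := congrArg Multiplicative.toAdd h2
      simpa using this
    have h5 : k = 1 := Subtype.ext h3
    rw [e, h4, h5, map_one, zpow_zero, mul_one]

end Pool.Agent.HN
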