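import Pool.Agent.Lib.MP_98022b_hn.HNNMem
import Pool.Agent.Lib.MP_98022b_hn.Sys
import Pool.Agent.Lib.MP_98022b_pe.Base

/-!
# Cyclic extensions of locally nilpotent and of locally finite groups
-/

set_option autoImplicit false

namespace Pool.Agent.HN

open Subgroup SemidirectProduct
open Pool.Agent.FJ (IsFJClass IsFJClassT)
open Pool.Agent.PE (VPoly)
open Pool.Agent.Biset (VP)

/-- locally finite -/
def LF (G : Type) [Group G] : Prop := ∀ H : Subgroup G, H.FG → Finite H

theorem LF.of_injective {G K : Type} [Group G] [Group K] (hG : LF G) (f : K →* G)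
    (hf : Function.Injective f) : LF K := by
  intro H hH
  have h1 : (H.map f).FG := by
    obtain ⟨S, hS⟩ := hH
    classical
    exact ⟨S.image f, by rw [Finset.coe_image, ← MonoidHom.map_closure, hS]⟩
  have h2 := hG _ h1
  have e : H ≃* H.map f := H.equivMapOfInjective f hf
  exact Finite.of_injective e e.injective

/-- Virtually polycyclic torsion groups are finite. -/
theorem finite_of_vpoly {G : Type} [Group G] (h : VPoly G) (ht : ∀ x : G, IsOfFinOrder x) :
    Finite G := by
  induction h with
  | @trivial G _ h => infer_instance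
  | @step G _ N _ hN h ih =>
    have h1 : Finite N := ih fun x => by
      have := ht (x : G)
      rw [isOfFinOrder_iff_pow_eq_one] at this ⊢
      obtain ⟨n, hn, h⟩ := this
      exact ⟨n, hn, Subtype.ext h⟩
    have h2 : Finite (G ⧸ N) := by
      rcases h with h | h
      · obtain ⟨q, hq⟩ := h
        obtain ⟨x, rfl⟩ := QuotientGroup.mk_surjective q
        have h3 : IsOfFinOrder (QuotientGroup.mk x : G ⧸ N) := by
          have := ht x
          rw [isOfFinOrder_iff_pow_eq_one] at this ⊢
          obtain ⟨n, hn, h⟩ := this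
          refine ⟨n, hn, ?_⟩
          rw [← QuotientGroup.mk_pow, h, QuotientGroup.mk_one]
        have h4 : Finite (zpowers (QuotientGroup.mk x : G ⧸ N)) := finite_zpowers.2 h3
        exact Finite.of_surjective (fun z : zpowers (QuotientGroup.mk x : G ⧸ N) => (z : G ⧸ N))
          fun y => ⟨⟨y, hq y⟩, rfl⟩
      · exact h
    exact Finite.of_subgroup_quotient N

/-- The torsion subgroup of a locally nilpotent group is locally finite. -/
theorem lf_iso_bot {G : Type} [Group G] (hG : LN G) : LF (iso hG ⊥) := by
  intro H hH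
  have h1 : Group.IsNilpotent H := hG.of_injective _ (subtype_injective _) H hH
  refine finite_of_vpoly (vpoly_of_nilpotent H ((Group.fg_iff_subgroup_fg _).2 hH)) fun x => ?_
  rw [isOfFinOrder_iff_pow_eq_one]
  obtain ⟨n, hn, h⟩ := (x : iso hG (⊥ : Subgroup G)).2
  exact ⟨n, hn, Subtype.ext (Subtype.ext h)⟩

variable {P : ∀ (G : Type) [Group G], Prop}

/-- A group with a homomorphism to a cyclic group is in the class if the extensions of the kernel
by the integers are. -/
theorem mem_of_cyclic (hP : IsFJClass P) {G Z : Type} [Group G] [Group Z] [IsCyclic Z]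
    (f : G →* Z) (hT : ∀ α : MulAut f.ker, P (Tor α)) : P G := by
  have hK : P f.ker := hP.of_injective (H := Tor (1 : MulAut f.ker)) inl inl_injective (hT 1)
  obtain ⟨⟨_, g, rfl⟩, hgen⟩ := (inferInstance : IsCyclic f.range).exists_generator
  have hgen' : ∀ x : G, ∃ n : ℤ, (f g) ^ n = f x := by
    intro x
    obtain ⟨n, hn⟩ := hgen ⟨f x, x, rfl⟩
    refine ⟨n, ?_⟩
    have h1 := congrArg (fun z : f.range => (z : Z)) hn
    simpa using h1
  by_cases hfin : IsOfFinOrder (f g)
  · have hfinite : Finite f.range := by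
      have : Finite (Subgroup.zpowers (f g)) := finite_zpowers.2 hfin
      refine Finite.of_injective (fun z : f.range => (⟨(z : Z), ?_⟩ : Subgroup.zpowers (f g))) ?_
      · obtain ⟨_, x, rfl⟩ := z
        exact hgen' x
      · intro x y hxy
        exact Subtype.ext (congrArg (fun z : Subgroup.zpowers (f g) => (z : Z)) hxy)
    have h1 : f.ker.FiniteIndex := by
      have : Finite (G ⧸ f.ker) :=
        Finite.of_injective _ (QuotientGroup.quotientKerEquivRange f).injective
      exact Subgroup.finiteIndex_of_finite_quotient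
    exact hP.of_finiteIndex _ h1 hK
  · let α : MulAut f.ker := MulAut.conjNormal g
    have hTor : P (Tor α) := hT α
    let F : Tor α →* G := SemidirectProduct.lift f.ker.subtype (zpowersHom G g) (by
      intro n
      refine MonoidHom.ext fun k => ?_
      simp only [MonoidHom.comp_apply, MulEquiv.coe_toMonoidHom, Subgroup.coe_subtype,
        zpowersHom_apply, MulAut.conj_apply]
      have h1 : α ^ (Multiplicative.toAdd n) =
          MulAut.conjNormal (g ^ (Multiplicative.toAdd n)) := by
        rw [map_zpow]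
      rw [h1, MulAut.conjNormal_apply])
    have hF : ∀ x : Tor α, F x = (x.left : G) * g ^ (Multiplicative.toAdd x.right) := by
      intro x
      rfl
    have hFsurj : Function.Surjective F := by
      intro x
      obtain ⟨n, hn⟩ := hgen' x
      have hker : x * (g ^ n)⁻¹ ∈ f.ker := by
        rw [MonoidHom.mem_ker, map_mul, map_inv, map_zpow, hn]
        exact mul_inv_cancel _
      refine ⟨⟨⟨_, hker⟩, Multiplicative.ofAdd n⟩, ?_⟩
      rw [hF]
      simp
    have hFinj : Function.Injective F := by
      rw [injective_iff_map_eq_one]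
      intro x hx
      rw [hF] at hx
      have h1 : f g ^ (Multiplicative.toAdd x.right) = 1 := by
        have h2 := congrArg f hx
        have h3 : f (x.left : G) = 1 := x.left.2
        rw [map_mul, h3, one_mul, map_zpow, map_one] at h2
        exact h2
      have h4 : Multiplicative.toAdd x.right = 0 := by
        by_contra hne
        exact hfin (isOfFinOrder_iff_zpow_eq_one.2 ⟨_, hne, h1⟩)
      rw [h4, zpow_zero, mul_one] at hx
      refine SemidirectProduct.ext (Subtype.ext hx) ?_
      exact Multiplicative.toAdd.injective h4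
    exact hP.of_equiv (MulEquiv.ofBijective F ⟨hFinj, hFsurj⟩).symm hTor

section tf

variable {K : Type} [Group K] (α : MulAut K)

/-- the isolated subgroup generated by a finite set -/
def DI (hK : LN K) (S : Finset K) : Subgroup K := iso hK (closure (S : Set K))

theorem map_iso_le (hK : LN K) (H : Subgroup K) :
    (iso hK H).map α.toMonoidHom ≤ iso hK (H.map α.toMonoidHom) := by
  rintro _ ⟨x, ⟨n, hn, hx⟩, rfl⟩
  exact ⟨n, hn, by rw [← map_pow]; exact mem_map_of_mem _ hx⟩

theorem dom_DI (hK : LN K) : Dom α (DI hK) where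
  mono h := iso_mono hK (closure_mono (by exact_mod_cast h))
  mem h := le_iso hK _ (subset_closure h)
  ex S := by
    classical
    refine ⟨S ∪ S.image α, Finset.subset_union_left, sup_le ?_ ?_⟩
    · exact iso_mono hK (closure_mono (by exact_mod_cast Finset.subset_union_left))
    · refine (map_iso_le α hK _).trans (iso_mono hK ?_)
      rw [MonoidHom.map_closure]
      refine closure_mono ?_
      rintro _ ⟨s, hs, rfl⟩
      exact_mod_cast Finset.mem_union_right _ (Finset.mem_image_of_mem α hs)
  ex' S := by
    classical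
    refine ⟨S ∪ S.image α.symm, Finset.subset_union_left, sup_le ?_ ?_⟩
    · rintro x ⟨n, hn, hx⟩
      refine ⟨α.symm x, ⟨n, hn, ?_⟩, α.apply_symm_apply x⟩
      rw [← map_pow]
      have h1 : (closure (S : Set K)).map α.symm.toMonoidHom ≤
          closure ((S ∪ S.image α.symm : Finset K) : Set K) := by
        rw [MonoidHom.map_closure]
        refine closure_mono ?_
        rintro _ ⟨s, hs, rfl⟩
        exact_mod_cast Finset.mem_union_right _ (Finset.mem_image_of_mem α.symm hs)
      exact h1 (mem_map_of_mem _ hx)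
    · exact Subgroup.map_mono
        (iso_mono hK (closure_mono (by exact_mod_cast Finset.subset_union_left)))

theorem tor_mem_tf (hP : IsFJClassT P)
    (hsol : ∀ (G : Type) [Group G], Group.IsSolvable G → P G) (hK : LN K) (htf : TF K) :
    P (Tor α) := by
  classical
  have := dom_DI α hK
  refine tor_mem α (DI hK) hP.toIsFJClass fun S => (dat α (DI hK) S).mem P ?_
  let T : Finset K := S ∪ S.image α
  have hT1 : closure (T : Set K) ≤ base α (DI hK) S := by
    rw [closure_le]
    intro x hx
    rcases Finset.mem_union.1 (Finset.mem_coe.1 hx) with h | h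
    · exact dom_le_base α _ S (le_iso hK _ (subset_closure h))
    · obtain ⟨s, hs, rfl⟩ := Finset.mem_image.1 h
      exact map_le_base α _ S ⟨s, le_iso hK _ (subset_closure hs), rfl⟩
  have hT2 : base α (DI hK) S ≤ iso hK (closure (T : Set K)) := by
    refine sup_le ?_ ?_
    · exact iso_mono hK (closure_mono (by exact_mod_cast Finset.subset_union_left))
    · refine (map_iso_le α hK _).trans (iso_mono hK ?_)
      rw [MonoidHom.map_closure]
      refine closure_mono ?_
      rintro _ ⟨s, hs, rfl⟩
      exact_mod_cast Finset.mem_union_right _ (Finset.mem_image_of_mem α hs)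
  have hTfg : (closure (T : Set K)).FG := ⟨T, rfl⟩
  have hTn : Group.IsNilpotent (closure (T : Set K)) := hK _ hTfg
  obtain ⟨m, hm⟩ := PE.VPoly.exists_rank
    (vpoly_of_nilpotent _ ((Group.fg_iff_subgroup_fg _).2 hTfg))
  have hTi := nilpotent_iso hK htf _ hTn
  have hB : Group.IsNilpotent (base α (DI hK) S) :=
    Group.nilpotent_of_mulEquiv (subgroupOfEquivOfLe hT2)
  refine hnn_mem_isol hP hsol hB ((closure (T : Set K)).subgroupOf (base α (DI hK) S))
    (m := m) (VP.of_injective (subgroupOfEquivOfLe hT1).toMonoidHom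
      (subgroupOfEquivOfLe hT1).injective hm) ?_ ?_ ?_
  · intro x
    obtain ⟨n, hn, h⟩ := hT2 x.2
    exact ⟨n, hn, h⟩
  · intro x n hn h
    exact isol_iso hK _ (x : K) n hn h
  · rintro x n hn ⟨y, hy, hyx⟩
    refine ⟨α.symm x, isol_iso hK _ _ n hn ?_, α.apply_symm_apply _⟩
    have h1 : y = (α.symm (x : K)) ^ n := by
      rw [← map_pow]
      have h2 : α y = (x : K) ^ n := hyx
      rw [← h2]
      exact (α.symm_apply_apply y).symm
    rw [← h1]
    exact hy

/-- the subgroup generated by a finite set -/
def DC (S : Finset K) : Subgroup K := closure (S : Set K)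

theorem dom_DC : Dom α (DC (K := K)) where
  mono h := closure_mono (by exact_mod_cast h)
  mem h := subset_closure h
  ex S := by
    classical
    refine ⟨S ∪ S.image α, Finset.subset_union_left, sup_le ?_ ?_⟩
    · exact closure_mono (by exact_mod_cast Finset.subset_union_left)
    · rw [DC, MonoidHom.map_closure]
      refine closure_mono ?_
      rintro _ ⟨s, hs, rfl⟩
      exact_mod_cast Finset.mem_union_right _ (Finset.mem_image_of_mem α hs)
  ex' S := by
    classical
    refine ⟨S ∪ S.image α.symm, Finset.subset_union_left, sup_le ?_ ?_⟩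
    · rw [DC, closure_le]
      intro s hs
      refine ⟨α.symm s, subset_closure ?_, α.apply_symm_apply s⟩
      exact_mod_cast Finset.mem_union_right _ (Finset.mem_image_of_mem α.symm hs)
    · exact Subgroup.map_mono (closure_mono (by exact_mod_cast Finset.subset_union_left))

theorem tor_mem_lf (hP : IsFJClassT P)
    (hsol : ∀ (G : Type) [Group G], Group.IsSolvable G → P G) (hK : LF K) : P (Tor α) := by
  classical
  have := dom_DC α
  refine tor_mem α DC hP.toIsFJClass fun S => (dat α DC S).mem P ?_
  let T : Finset K := S ∪ S.image α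
  have hT2 : base α DC S ≤ closure (T : Set K) := by
    refine sup_le ?_ ?_
    · exact closure_mono (by exact_mod_cast Finset.subset_union_left)
    · rw [DC, MonoidHom.map_closure]
      refine closure_mono ?_
      rintro _ ⟨s, hs, rfl⟩
      exact_mod_cast Finset.mem_union_right _ (Finset.mem_image_of_mem α hs)
  have hTf : Finite (closure (T : Set K)) := hK _ ⟨T, rfl⟩
  have hB : Finite (base α DC S) := Finite.of_injective _ (inclusion_injective hT2)
  exact hnn_mem_fin hP hsol

end tf

section

variable {G Z : Type} [Group G] [Group Z] [IsCyclic Z]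

/-- Cyclic extensions of locally finite groups. -/
theorem mem_lf (hP : IsFJClassT P) (hsol : ∀ (G : Type) [Group G], Group.IsSolvable G → P G)
    (f : G →* Z) (hK : LF f.ker) : P G :=
  mem_of_cyclic hP.toIsFJClass f fun α => tor_mem_lf α hP hsol hK

/-- Cyclic extensions of torsion-free locally nilpotent groups. -/
theorem mem_tf (hP : IsFJClassT P) (hsol : ∀ (G : Type) [Group G], Group.IsSolvable G → P G)
    (f : G →* Z) (hK : LN f.ker) (htf : TF f.ker) : P G :=
  mem_of_cyclic hP.toIsFJClass f fun α => tor_mem_tf α hP hsol hK htf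

/-- Cyclic extensions of locally nilpotent groups. -/
theorem mem_ln (hP : IsFJClassT P) (hsol : ∀ (G : Type) [Group G], Group.IsSolvable G → P G)
    (f : G →* Z) (hK : LN f.ker) : P G := by
  obtain ⟨τ, hτ⟩ : ∃ τ : Subgroup G, ∀ x, x ∈ τ ↔ x ∈ f.ker ∧ IsOfFinOrder x := by
    refine ⟨(iso hK ⊥).map f.ker.subtype, fun x => ?_⟩
    constructor
    · rintro ⟨y, ⟨n, hn, hy⟩, rfl⟩
      refine ⟨y.2, isOfFinOrder_iff_pow_eq_one.2 ⟨n, hn, ?_⟩⟩
      exact congrArg (fun z : f.ker => (z : G)) (mem_bot.1 hy)
    · rintro ⟨h1, h2⟩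
      obtain ⟨n, hn, h⟩ := isOfFinOrder_iff_pow_eq_one.1 h2
      exact ⟨⟨x, h1⟩, ⟨n, hn, mem_bot.2 (Subtype.ext h)⟩, rfl⟩
  have hn : τ.Normal := by
    refine ⟨fun x hx g => ?_⟩
    rw [hτ] at hx ⊢
    refine ⟨(inferInstance : f.ker.Normal).conj_mem x hx.1 g, ?_⟩
    obtain ⟨n, hn, h⟩ := isOfFinOrder_iff_pow_eq_one.1 hx.2
    refine isOfFinOrder_iff_pow_eq_one.2 ⟨n, hn, ?_⟩
    rw [conj_pow, h, mul_one, mul_inv_cancel]
  let f' : G ⧸ τ →* Z := QuotientGroup.lift τ f fun x hx => ((hτ x).1 hx).1
  have hf' : ∀ x : G, f' (QuotientGroup.mk x) = f x := fun x => rfl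
  let q : f.ker →* f'.ker := ((QuotientGroup.mk' τ).comp f.ker.subtype).codRestrict f'.ker
    fun x => by
      show f' (QuotientGroup.mk (x : G)) = 1
      rw [hf']
      exact x.2
  have hq : Function.Surjective q := by
    rintro ⟨z, hz⟩
    obtain ⟨x, rfl⟩ := QuotientGroup.mk_surjective z
    exact ⟨⟨x, hz⟩, rfl⟩
  have hQ : P (G ⧸ τ) := by
    refine mem_tf hP hsol f' (hK.of_surjective q hq) ?_
    rintro ⟨z, hz⟩ n hn h
    obtain ⟨x, rfl⟩ := QuotientGroup.mk_surjective z
    have h1 : x ^ n ∈ τ := by
      rw [← QuotientGroup.eq_one_iff]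
      exact congrArg (fun z : f'.ker => (z : G ⧸ τ)) h
    obtain ⟨-, h2⟩ := (hτ _).1 h1
    have h3 : x ∈ τ := (hτ x).2 ⟨hz, (isOfFinOrder_pow.1 h2).resolve_right (by omega)⟩
    exact Subtype.ext ((QuotientGroup.eq_one_iff x).2 h3)
  refine hP.toIsFJClass.extension (QuotientGroup.mk' τ) hQ fun y => ?_
  let g : (zpowers y).comap (QuotientGroup.mk' τ) →* zpowers y :=
    ((QuotientGroup.mk' τ).comp (Subgroup.subtype _)).codRestrict (zpowers y) fun x => x.2
  refine mem_lf hP hsol g ?_
  have hi : ∀ x : g.ker, ((x : (zpowers y).comap (QuotientGroup.mk' τ)) : G) ∈ τ := fun x => by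
    have h1 : g (x : (zpowers y).comap (QuotientGroup.mk' τ)) = 1 := x.2
    have h2 := congrArg (fun z : zpowers y => (z : G ⧸ τ)) h1
    exact (QuotientGroup.eq_one_iff _).1 h2
  let i : g.ker →* iso hK ⊥ :=
    { toFun := fun x => ⟨⟨x, ((hτ _).1 (hi x)).1⟩, by
        obtain ⟨n, hn, h⟩ := isOfFinOrder_iff_pow_eq_one.1 ((hτ _).1 (hi x)).2
        exact ⟨n, hn, mem_bot.2 (Subtype.ext h)⟩⟩
      map_one' := rfl
      map_mul' := fun a b => rfl }
  refine (lf_iso_bot hK).of_injective i fun a b hab => ?_
  have h1 := congrArg (fun z : iso hK (⊥ : Subgroup f.ker) => ((z : f.ker) : G)) hab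
  exact Subtype.ext (Subtype.ext h1)

end

end Pool.Agent.HN
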