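import Pool.Agent.Lib.MP_98022b_hn.Cyc

/-!
# Extensions with hyper-(locally nilpotent or locally finite) kernel
-/

set_option autoImplicit false

namespace Pool.Agent.HN

open Subgroup
open Pool.Agent.FJ (IsFJClass IsFJClassT)

/-- `K` is a hyper-(locally nilpotent or locally finite) subgroup of `G`: every normal subgroup
`N` of `G` which is properly contained in `K` is properly contained in a normal subgroup `N'` of
`G`, which is contained in `K`, such that `N' / N` is locally nilpotent or locally finite. -/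
def Hyper {G : Type} [Group G] (K : Subgroup G) : Prop :=
  ∀ (N : Subgroup G) (_ : N.Normal), N < K → ∃ N' : Subgroup G, N'.Normal ∧ N < N' ∧ N' ≤ K ∧
    (LN (N'.map (QuotientGroup.mk' N)) ∨ LF (N'.map (QuotientGroup.mk' N)))

/-- Solvable normal subgroups are hyper-(locally nilpotent or locally finite). -/
theorem hyper_of_solvable {G : Type} [Group G] (K : Subgroup G) [K.Normal]
    (hK : Group.IsSolvable K) : Hyper K := by
  intro N hN hNK
  obtain ⟨n, hn⟩ := id hK
  -- the first term of the derived series which is contained in `N`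
  have hex : ∃ i, ((derivedSeries K i).map K.subtype) ≤ N := ⟨n, by
    rw [hn, Subgroup.map_bot]
    exact bot_le⟩
  classical
  obtain ⟨i, hi⟩ : ∃ i, i = Nat.find hex := ⟨_, rfl⟩
  have h1 : (derivedSeries K i).map K.subtype ≤ N := by
    rw [hi]
    exact Nat.find_spec hex
  cases i with
  | zero =>
    refine absurd ?_ (not_le_of_gt hNK)
    rw [derivedSeries_zero, ← MonoidHom.range_eq_map, Subgroup.range_subtype] at h1
    exact h1
  | succ i =>
    have h2 : ¬ (derivedSeries K i).map K.subtype ≤ N := Nat.find_min hex (by omega)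
    let D : Subgroup G := (derivedSeries K i).map K.subtype
    have hDn : D.Normal := inferInstance
    refine ⟨N ⊔ D, inferInstance, ?_, sup_le hNK.le ?_, Or.inl ?_⟩
    · refine lt_of_le_of_ne le_sup_left fun h => h2 ?_
      rw [h]
      exact le_sup_right
    · rintro _ ⟨x, -, rfl⟩
      exact x.2
    · intro H _
      have hc : ∀ a b : ((N ⊔ D).map (QuotientGroup.mk' N)), a * b = b * a := by
        have hD : ∀ a ∈ (N ⊔ D).map (QuotientGroup.mk' N), ∃ d ∈ D,
            (QuotientGroup.mk' N) d = a := by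
          rintro _ ⟨x, hx, rfl⟩
          obtain ⟨n, hn, d, hd, rfl⟩ := Subgroup.mem_sup_of_normal_left.1 hx
          refine ⟨d, hd, ?_⟩
          rw [map_mul, (show (QuotientGroup.mk' N) n = 1 from (QuotientGroup.eq_one_iff n).2 hn),
            one_mul]
        rintro ⟨a, ha⟩ ⟨b, hb⟩
        obtain ⟨c, hc, rfl⟩ := hD a ha
        obtain ⟨d, hd, rfl⟩ := hD b hb
        refine Subtype.ext ?_
        show (QuotientGroup.mk' N) c * (QuotientGroup.mk' N) d =
          (QuotientGroup.mk' N) d * (QuotientGroup.mk' N) c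
        rw [← commutatorElement_eq_one_iff_mul_comm, ← map_commutatorElement]
        refine (QuotientGroup.eq_one_iff _).2 (h1 ?_)
        obtain ⟨c', hc', rfl⟩ := hc
        obtain ⟨d', hd', rfl⟩ := hd
        rw [← map_commutatorElement]
        refine mem_map_of_mem _ ?_
        rw [derivedSeries_succ]
        exact commutator_mem_commutator hc' hd'
      have hc' : ∀ a b : H, a * b = b * a := fun a b => Subtype.ext (hc a b)
      let : CommGroup H := { (inferInstance : Group H) with mul_comm := hc' }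
      exact CommGroup.isNilpotent

variable {P : ∀ (G : Type) [Group G], Prop}

/-- The property of the Zorn argument. -/
def Good (P : ∀ (G : Type) [Group G], Prop) {G : Type} [Group G] (N : Subgroup G) : Prop :=
  ∀ (L Q : Type) [Group L] [Group Q] (i : L →* G) (f : L →* Q), Function.Injective i →
    (∀ x, f x = 1 → i x ∈ N) → P Q → P L

theorem good_bot (hP : IsFJClass P) {G : Type} [Group G] : Good P (⊥ : Subgroup G) := by
  intro L Q _ _ i f hi hf hQ
  refine hP.of_injective f ?_ hQ
  rw [injective_iff_map_eq_one]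
  intro x hx
  have h := mem_bot.1 (hf x hx)
  exact hi (by rw [h, map_one])

theorem cyc_mem (hsol : ∀ (G : Type) [Group G], Group.IsSolvable G → P G) {G : Type} [Group G]
    [IsCyclic G] : P G := by
  refine hsol _ (Group.isSolvable_of_comm fun a b => ?_)
  let := IsCyclic.commGroup (α := G)
  exact mul_comm a b

/-- The step at the limits. -/
theorem good_sSup (hP : IsFJClass P) (hsol : ∀ (G : Type) [Group G], Group.IsSolvable G → P G)
    {G : Type} [Group G] (c : Set (Subgroup G)) (hc : IsChain (· ≤ ·) c) (hne : c.Nonempty)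
    (hn : ∀ N ∈ c, N.Normal) (hg : ∀ N ∈ c, Good P N) : Good P (sSup c) := by
  classical
  intro L Q _ _ i f hi hf hQ
  refine hP.extension f hQ fun q => ?_
  obtain ⟨M, hM⟩ : ∃ M, M = (zpowers q).comap f := ⟨_, rfl⟩
  rw [← hM]
  have hM' : ∀ x : M, f (x : L) ∈ zpowers q := fun x => by
    have h1 : (x : L) ∈ (zpowers q).comap f := hM.le x.2
    exact h1
  let fM : M →* zpowers q := (f.comp M.subtype).codRestrict (zpowers q) hM'
  obtain ⟨⟨_, t, rfl⟩, hgen⟩ := (inferInstance : IsCyclic fM.range).exists_generator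
  have hgen' : ∀ x : M, ∃ n : ℤ, f (x : L) = f (t : L) ^ n := by
    intro x
    obtain ⟨n, hn⟩ := hgen ⟨fM x, x, rfl⟩
    refine ⟨n, ?_⟩
    have h1 := congrArg (fun z : fM.range => ((z : zpowers q) : Q)) hn
    exact h1.symm
  refine hP.locally fun S => ?_
  choose e he using hgen'
  have hN : ∀ x : M, i ((x : L) * ((t : L) ^ (e x))⁻¹) ∈ sSup c := fun x => hf _ (by
    rw [map_mul, map_inv, map_zpow, he x, mul_inv_cancel])
  have hdir : DirectedOn (· ≤ ·) c := hc.directedOn
  have hT : ∀ T : Finset M, ∃ N ∈ c, ∀ x ∈ T, i ((x : L) * ((t : L) ^ (e x))⁻¹) ∈ N := by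
    intro T
    induction T using Finset.induction_on with
    | empty =>
      obtain ⟨N, hN⟩ := hne
      exact ⟨N, hN, by simp⟩
    | insert a T _ ih =>
      obtain ⟨N, hN1, hN2⟩ := ih
      obtain ⟨N', hN'1, hN'2⟩ := (mem_sSup_of_directedOn hne hdir).1 (hN a)
      obtain ⟨N'', h1, h2, h3⟩ := hdir N hN1 N' hN'1
      refine ⟨N'', h1, fun x hx => ?_⟩
      rcases Finset.mem_insert.1 hx with rfl | hx
      · exact h3 hN'2
      · exact h2 (hN2 x hx)
  obtain ⟨N, hNc, hNS⟩ := hT S
  have hNn := hn N hNc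
  let j : M →* G := i.comp M.subtype
  have hj : Function.Injective j := hi.comp M.subtype_injective
  refine ⟨(N ⊔ zpowers (j t)).comap j, fun x hx => ?_, ?_⟩
  · rw [mem_comap]
    have h1 : j x = i ((x : L) * ((t : L) ^ (e x))⁻¹) * (j t) ^ (e x) := by
      have h2 : (j t) ^ (e x) = i ((t : L) ^ (e x)) := (map_zpow i (t : L) (e x)).symm
      rw [h2, ← map_mul, inv_mul_cancel_right]
      rfl
    rw [h1]
    exact mul_mem (mem_sup_left (hNS x hx)) (mem_sup_right (zpow_mem (mem_zpowers _) _))
  · let K : Subgroup M := (N ⊔ zpowers (j t)).comap j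
    have hz : ∀ x : K, (QuotientGroup.mk' N) (j x) ∈ zpowers ((QuotientGroup.mk' N) (j t)) := by
      intro x
      have h1 : j x ∈ N ⊔ zpowers (j t) := x.2
      obtain ⟨n, hn, z, hz, h⟩ := Subgroup.mem_sup_of_normal_left.1 h1
      obtain ⟨m, rfl⟩ := mem_zpowers_iff.1 hz
      rw [← h, map_mul, (show (QuotientGroup.mk' N) n = 1 from (QuotientGroup.eq_one_iff n).2 hn),
        one_mul, map_zpow]
      exact zpow_mem (mem_zpowers _) _
    refine hg N hNc K (zpowers ((QuotientGroup.mk' N) (j t))) (j.comp K.subtype)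
      (((QuotientGroup.mk' N).comp (j.comp K.subtype)).codRestrict _ hz)
      (hj.comp K.subtype_injective) (fun x hx => ?_) (cyc_mem hsol)
    have h1 := congrArg (fun z : zpowers ((QuotientGroup.mk' N) (j t)) => (z : G ⧸ N)) hx
    exact (QuotientGroup.eq_one_iff _).1 h1

/-- The successor step. -/
theorem good_succ (hP : IsFJClassT P) (hsol : ∀ (G : Type) [Group G], Group.IsSolvable G → P G)
    {G : Type} [Group G] (N N' : Subgroup G) [N.Normal] (hg : Good P N)
    (h : LN (N'.map (QuotientGroup.mk' N)) ∨ LF (N'.map (QuotientGroup.mk' N))) : Good P N' := by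
  intro L Q _ _ i f hi hf hQ
  let F : L →* Q × (G ⧸ N) := f.prod ((QuotientGroup.mk' N).comp i)
  refine hg L F.range i F.rangeRestrict hi (fun x hx => ?_) ?_
  · have h1 := congrArg (fun z : F.range => (z : Q × (G ⧸ N)).2) hx
    exact (QuotientGroup.eq_one_iff _).1 h1
  let pr : F.range →* Q := (MonoidHom.fst Q (G ⧸ N)).comp F.range.subtype
  refine hP.toIsFJClass.extension pr hQ fun q => ?_
  let g : (zpowers q).comap pr →* zpowers q :=
    (pr.comp (Subgroup.subtype _)).codRestrict (zpowers q) fun x => x.2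
  have hker : ∀ x : g.ker, (((x : (zpowers q).comap pr) : F.range) : Q × (G ⧸ N)).1 = 1 := by
    intro x
    have h1 : g (x : (zpowers q).comap pr) = 1 := x.2
    exact congrArg (fun z : zpowers q => (z : Q)) h1
  have hmem : ∀ x : g.ker, (((x : (zpowers q).comap pr) : F.range) : Q × (G ⧸ N)).2 ∈
      N'.map (QuotientGroup.mk' N) := by
    intro x
    have h1 := hker x
    obtain ⟨y, hy⟩ := ((x : (zpowers q).comap pr) : F.range).2
    rw [← hy] at h1 ⊢
    exact ⟨i y, hf y h1, rfl⟩
  let I : g.ker →* N'.map (QuotientGroup.mk' N) :=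
    { toFun := fun x => ⟨_, hmem x⟩
      map_one' := rfl
      map_mul' := fun a b => rfl }
  have hI : Function.Injective I := by
    intro a b hab
    have h1 := congrArg (fun z : N'.map (QuotientGroup.mk' N) => (z : G ⧸ N)) hab
    refine Subtype.ext (Subtype.ext (Subtype.ext (Prod.ext ?_ h1)))
    rw [hker a, hker b]
  rcases h with h | h
  · exact mem_ln hP hsol g (h.of_injective I hI)
  · exact mem_lf hP hsol g (h.of_injective I hI)

/-- Extensions of groups in the class by hyper-(locally nilpotent or locally finite) groups. -/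
theorem mem_hyper (hP : IsFJClassT P)
    (hsol : ∀ (G : Type) [Group G], Group.IsSolvable G → P G) {G Q : Type} [Group G] [Group Q]
    (f : G →* Q) (hQ : P Q) (hK : Hyper f.ker) : P G := by
  obtain ⟨N, hN⟩ := zorn_le₀ {N : Subgroup G | N.Normal ∧ N ≤ f.ker ∧ Good P N} (by
    intro c hcs hc
    rcases c.eq_empty_or_nonempty with rfl | hne
    · exact ⟨⊥, ⟨inferInstance, bot_le, good_bot hP.toIsFJClass⟩, by simp⟩
    · refine ⟨sSup c, ⟨?_, sSup_le fun N hN => (hcs hN).2.1,
        good_sSup hP.toIsFJClass hsol c hc hne (fun N hN => (hcs hN).1)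
          (fun N hN => (hcs hN).2.2)⟩, fun N hN => le_sSup hN⟩
      refine ⟨fun x hx g => ?_⟩
      obtain ⟨N, hN1, hN2⟩ := (mem_sSup_of_directedOn hne hc.directedOn).1 hx
      exact (mem_sSup_of_directedOn hne hc.directedOn).2 ⟨N, hN1, (hcs hN1).1.conj_mem x hN2 g⟩)
  obtain ⟨h1, h2, h3⟩ := hN.prop
  rcases h2.lt_or_eq with h4 | h4
  · obtain ⟨N', h5, h6, h7, h8⟩ := hK N h1 h4
    have h9 : Good P N' := good_succ hP hsol N N' h3 h8
    exact absurd (hN.le_of_ge ⟨h5, h7, h9⟩ h6.le) (not_le_of_gt h6)
  · exact h3 G Q (MonoidHom.id G) f Function.injective_id (fun x hx => by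
      rw [h4]
      exact hx) hQ

end Pool.Agent.HN
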