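import Pool.Agent.Lib.MP_98022b_hn.Nil
import Pool.Agent.Lib.MP_52ecc8_gt_h60.FI
import Pool.Agent.Lib.MP_98022b_pe.Base

/-!
# Isolators in torsion-free locally nilpotent groups
-/

set_option autoImplicit false

namespace Pool.Agent.HN

open Subgroup
open scoped commutatorElement
open Pool.Agent.PE (VPoly)
open Pool.Agent.Biset (VP)

/-- torsion-free -/
def TF (G : Type) [Group G] : Prop := ∀ (x : G) (n : ℕ), 0 < n → x ^ n = 1 → x = 1

/-- locally nilpotent -/
def LN (G : Type) [Group G] : Prop := ∀ H : Subgroup G, H.FG → Group.IsNilpotent H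

theorem LN.of_injective {G K : Type} [Group G] [Group K] (hG : LN G) (f : K →* G)
    (hf : Function.Injective f) : LN K := by
  intro H hH
  have h1 : (H.map f).FG := by
    obtain ⟨S, hS⟩ := hH
    classical
    exact ⟨S.image f, by rw [Finset.coe_image, ← MonoidHom.map_closure, hS]⟩
  have h2 := hG _ h1
  have e : H ≃* H.map f := H.equivMapOfInjective f hf
  exact Group.nilpotent_of_mulEquiv e.symm

theorem LN.of_surjective {G K : Type} [Group G] [Group K] (hG : LN G) (f : G →* K)
    (hf : Function.Surjective f) : LN K := by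
  classical
  intro H hH
  obtain ⟨S, hS⟩ := hH
  obtain ⟨T, hT⟩ : ∃ T : Finset G, T.image f = S := by
    choose g hg using hf
    refine ⟨S.image g, ?_⟩
    rw [Finset.image_image]
    have : f ∘ g = id := funext hg
    rw [this, Finset.image_id]
  have h1 := hG (closure (T : Set G)) ⟨T, rfl⟩
  have h2 : (closure (T : Set G)).map f = H := by
    rw [MonoidHom.map_closure, ← hS, ← hT, Finset.coe_image]
  rw [← h2]
  exact Group.nilpotent_of_surjective (f.subgroupMap _) (f.subgroupMap_surjective _)

/-- Roots are unique in torsion-free nilpotent groups. -/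
theorem root_unique_nil {G : Type} [Group G] (hn : Group.IsNilpotent G) (htf : TF G) (n : ℕ)
    (hn0 : 0 < n) : ∀ x y : G, x ^ n = y ^ n → x = y := by
  have key : ∀ i : ℕ, ∀ x y : G, x ^ n = y ^ n → x * y⁻¹ ∈ Subgroup.upperCentralSeries G i → x = y := by
    intro i
    induction i with
    | zero =>
      intro x y _ h
      rw [Subgroup.upperCentralSeries_zero, mem_bot] at h
      exact mul_inv_eq_one.1 h
    | succ i ih =>
      intro x y hxy h
      have h1 : (y * x * y⁻¹) ^ n = x ^ n := by
        rw [conj_pow, hxy]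
        group
      have h2 : y * x * y⁻¹ * x⁻¹ ∈ Subgroup.upperCentralSeries G i := by
        have h3 := (Subgroup.mem_upperCentralSeries_succ_iff (G := G)).1 h y
        have h4 : y * x * y⁻¹ * x⁻¹ = ⁅x * y⁻¹, y⁆⁻¹ := by
          rw [commutatorElement_def]
          group
        rw [h4]
        exact inv_mem h3
      have h5 : y * x * y⁻¹ = x := ih _ _ h1 h2
      have h6 : Commute y x := by
        rw [Commute, SemiconjBy]
        exact mul_inv_eq_iff_eq_mul.1 h5
      have h7 : (x * y⁻¹) ^ n = 1 := by
        rw [(h6.symm.inv_right).mul_pow, hxy, inv_pow, mul_inv_cancel]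
      exact mul_inv_eq_one.1 (htf _ n hn0 h7)
  obtain ⟨c, hc⟩ := hn
  intro x y h
  exact key c x y h (by rw [hc]; exact mem_top _)

theorem TF.of_injective {G K : Type} [Group G] [Group K] (hG : TF G) (f : K →* G)
    (hf : Function.Injective f) : TF K := by
  intro x n hn h
  refine hf ?_
  rw [map_one]
  exact hG _ n hn (by rw [← map_pow, h, map_one])

theorem pair_fg {G : Type} [Group G] (x y : G) : (closure ({x, y} : Set G)).FG := by
  classical
  exact ⟨{x, y}, by simp⟩

/-- Roots are unique in torsion-free locally nilpotent groups. -/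
theorem root_unique {G : Type} [Group G] (hG : LN G) (htf : TF G) {n : ℕ} (hn : 0 < n) {x y : G}
    (h : x ^ n = y ^ n) : x = y := by
  have h1 := hG _ (pair_fg x y)
  have hx : x ∈ closure ({x, y} : Set G) := subset_closure (by simp)
  have hy : y ∈ closure ({x, y} : Set G) := subset_closure (by simp)
  have h2 := root_unique_nil h1 (htf.of_injective _ (subtype_injective _)) n hn
    ⟨x, hx⟩ ⟨y, hy⟩ (Subtype.ext h)
  exact congrArg Subtype.val h2

/-- If a power of `x` commutes with `y` then `x` commutes with `y`. -/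
theorem commute_of_pow {G : Type} [Group G] (hG : LN G) (htf : TF G) {n : ℕ} (hn : 0 < n)
    {x y : G} (h : Commute (x ^ n) y) : Commute x y := by
  have h1 : (y * x * y⁻¹) ^ n = x ^ n := by
    rw [conj_pow, ← h.eq, mul_inv_cancel_right]
  have h2 := root_unique hG htf hn h1
  exact (mul_inv_eq_iff_eq_mul.1 h2).symm

/-- isolated subgroups -/
def Isol {G : Type} [Group G] (N : Subgroup G) : Prop :=
  ∀ (x : G) (n : ℕ), 0 < n → x ^ n ∈ N → x ∈ N

theorem comm_isol {G : Type} [Group G] (hG : LN G) (N : Subgroup G) [N.Normal] (hN : Isol N)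
    {n : ℕ} (hn : 0 < n) {x y : G} (h : ⁅x ^ n, y⁆ ∈ N) : ⁅x, y⁆ ∈ N := by
  have hQ : LN (G ⧸ N) := hG.of_surjective _ (QuotientGroup.mk'_surjective N)
  have htf : TF (G ⧸ N) := by
    intro q m hm hq
    obtain ⟨z, rfl⟩ := QuotientGroup.mk_surjective q
    rw [QuotientGroup.eq_one_iff]
    refine hN z m hm ?_
    rw [← QuotientGroup.eq_one_iff]
    exact hq
  have h1 : Commute ((QuotientGroup.mk x : G ⧸ N) ^ n) (QuotientGroup.mk y) := by
    rw [← commutatorElement_eq_one_iff_commute]
    have h2 : ((⁅x ^ n, y⁆ : G) : G ⧸ N) = 1 := (QuotientGroup.eq_one_iff _).2 h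
    exact h2
  have h3 := commute_of_pow hQ htf hn h1
  rw [← commutatorElement_eq_one_iff_commute] at h3
  exact (QuotientGroup.eq_one_iff _).1 h3

theorem isol_upper {G : Type} [Group G] (hG : LN G) (htf : TF G) (i : ℕ) :
    Isol (Subgroup.upperCentralSeries G i) := by
  induction i with
  | zero =>
    intro x n hn h
    rw [Subgroup.upperCentralSeries_zero, mem_bot] at h ⊢
    exact htf x n hn h
  | succ i ih =>
    intro x n hn h
    rw [Subgroup.mem_upperCentralSeries_succ_iff] at h ⊢
    intro y
    exact comm_isol hG _ ih hn (h y)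

/-- A torsion-free locally nilpotent group is nilpotent if it has a nilpotent subgroup which
contains a power of each element. -/
theorem nilpotent_of_pow {G : Type} [Group G] (hG : LN G) (htf : TF G) (H : Subgroup G)
    (hH : Group.IsNilpotent H) (hp : ∀ g : G, HasPow H g) : Group.IsNilpotent G := by
  have key : ∀ i : ℕ, ∀ h : H, h ∈ Subgroup.upperCentralSeries H i → (h : G) ∈ Subgroup.upperCentralSeries G i := by
    intro i
    induction i with
    | zero =>
      intro h hh
      rw [Subgroup.upperCentralSeries_zero, mem_bot] at hh ⊢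
      rw [hh]
      rfl
    | succ i ih =>
      intro h hh
      rw [Subgroup.mem_upperCentralSeries_succ_iff] at hh ⊢
      intro y
      obtain ⟨n, hn, hy⟩ := hp y
      have h1 := ih _ (hh ⟨y ^ n, hy⟩)
      have h2 : ⁅y ^ n, (h : G)⁆ ∈ Subgroup.upperCentralSeries G i := by
        rw [← commutatorElement_inv]
        exact inv_mem h1
      have h3 := comm_isol hG _ (isol_upper hG htf i) hn h2
      rw [← commutatorElement_inv]
      exact inv_mem h3
  obtain ⟨c, hc⟩ := hH
  refine ⟨c, ?_⟩
  rw [eq_top_iff]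
  intro g _
  obtain ⟨n, hn, hg⟩ := hp g
  refine isol_upper hG htf c g n hn ?_
  exact key c ⟨g ^ n, hg⟩ (by rw [hc]; exact mem_top _)

/-- The product of two elements with powers in `H` has a power in `H`. -/
theorem HasPow.mul' {G : Type} [Group G] (hG : LN G) {H : Subgroup G} {x y : G}
    (hx : HasPow H x) (hy : HasPow H y) : HasPow H (x * y) := by
  have h1 := hG _ (pair_fg x y)
  have hx' : x ∈ closure ({x, y} : Set G) := subset_closure (by simp)
  have hy' : y ∈ closure ({x, y} : Set G) := subset_closure (by simp)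
  obtain ⟨c, hc⟩ := Subgroup.nilpotent_iff_lowerCentralSeries.1 h1
  obtain ⟨n, hn, h2⟩ := hasPow_of_closure c _ hc
    (H.comap (closure ({x, y} : Set G)).subtype) _ (closure_closure_coe_preimage (k := {x, y}))
    (by
      rintro ⟨s, hs⟩ hs'
      have hs'' : s = x ∨ s = y := by simpa using hs'
      rcases hs'' with rfl | rfl
      · obtain ⟨n, hn, h⟩ := hx
        exact ⟨n, hn, h⟩
      · obtain ⟨n, hn, h⟩ := hy
        exact ⟨n, hn, h⟩) (⟨x, hx'⟩ * ⟨y, hy'⟩)
  exact ⟨n, hn, h2⟩

/-- The isolator. -/
def iso {G : Type} [Group G] (hG : LN G) (H : Subgroup G) : Subgroup G where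
  carrier := {x | HasPow H x}
  one_mem' := HasPow.of_mem H.one_mem
  mul_mem' hx hy := HasPow.mul' hG hx hy
  inv_mem' h := h.inv

theorem mem_iso {G : Type} [Group G] {hG : LN G} {H : Subgroup G} {x : G} :
    x ∈ iso hG H ↔ HasPow H x := Iff.rfl

theorem le_iso {G : Type} [Group G] (hG : LN G) (H : Subgroup G) : H ≤ iso hG H :=
  fun _ h => HasPow.of_mem h

theorem iso_mono {G : Type} [Group G] (hG : LN G) {H K : Subgroup G} (h : H ≤ K) :
    iso hG H ≤ iso hG K := fun _ hx => hx.mono h

theorem isol_iso {G : Type} [Group G] (hG : LN G) (H : Subgroup G) : Isol (iso hG H) := by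
  intro x n hn h
  obtain ⟨m, hm, h⟩ := h
  exact ⟨n * m, Nat.mul_pos hn hm, by rw [pow_mul]; exact h⟩

theorem map_iso {G : Type} [Group G] (hG : LN G) (H : Subgroup G) (α : G ≃* G) :
    (iso hG H).map α.toMonoidHom ≤ iso hG (H.map α.toMonoidHom) := by
  rintro _ ⟨x, ⟨n, hn, hx⟩, rfl⟩
  exact ⟨n, hn, by rw [← map_pow]; exact mem_map_of_mem _ hx⟩

theorem nilpotent_iso {G : Type} [Group G] (hG : LN G) (htf : TF G) (H : Subgroup G)
    (hH : Group.IsNilpotent H) : Group.IsNilpotent (iso hG H) := by
  have h1 : Group.IsNilpotent (H.subgroupOf (iso hG H)) :=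
    Group.nilpotent_of_mulEquiv (subgroupOfEquivOfLe (le_iso hG H)).symm
  refine nilpotent_of_pow (hG.of_injective _ (subtype_injective _))
    (htf.of_injective _ (subtype_injective _)) _ h1 ?_
  intro g
  obtain ⟨n, hn, h⟩ := g.2
  exact ⟨n, hn, h⟩

/-- A descending sequence in a virtually polycyclic group has an early step of finite index. -/
theorem exists_vp_step {G : Type} [Group G] : ∀ (m : ℕ) (J : ℕ → Subgroup G)
    (_ : ∀ i, J (i + 1) ≤ J i) (_ : VP m (J 0)), ∃ i ≤ m, (J (i + 1)).relIndex (J i) ≠ 0 := by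
  intro m
  induction m with
  | zero =>
    intro J _ h
    have : Finite (J 0) := h
    exact ⟨0, le_rfl, Subgroup.index_ne_zero_of_finite⟩
  | succ m ih =>
    intro J hJ h
    rcases VP.finiteIndex_or h ((J 1).subgroupOf (J 0)) with h1 | h1
    · obtain ⟨i, hi, h2⟩ := ih (fun i => J (i + 1)) (fun i => hJ (i + 1))
        (VP.of_injective (subgroupOfEquivOfLe (hJ 0)).symm.toMonoidHom
          (subgroupOfEquivOfLe (hJ 0)).symm.injective h1)
      exact ⟨i + 1, by omega, h2⟩
    · exact ⟨0, Nat.zero_le _, h1.index_ne_zero⟩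

/-- The chain condition for isolated subgroups. -/
theorem isol_chain {G : Type} [Group G] (H : Subgroup G) {m : ℕ} (hH : VP m H)
    (J : ℕ → Subgroup G) (hJ : ∀ i, J (i + 1) ≤ J i) (hJH : ∀ x ∈ J 0, HasPow H x)
    (hI : ∀ i, ∀ x ∈ J i, ∀ n : ℕ, 0 < n → x ^ n ∈ J (i + 1) → x ∈ J (i + 1)) :
    ∃ i ≤ m, J i = J (i + 1) := by
  have hanti : Antitone J := antitone_nat_of_succ_le hJ
  have hV : VP m (J 0 ⊓ H : Subgroup G) := VP.of_injective (inclusion inf_le_right)
    (inclusion_injective _) hH
  obtain ⟨i, hi, h⟩ := exists_vp_step m (fun i => J i ⊓ H) (fun i => inf_le_inf_right H (hJ i)) hV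
  refine ⟨i, hi, le_antisymm ?_ (hJ i)⟩
  intro x hx
  obtain ⟨n, hn, h1⟩ := hJH x (hanti (Nat.zero_le i) hx)
  have h2 : x ^ n ∈ J i ⊓ H := ⟨(J i).pow_mem hx n, h1⟩
  obtain ⟨k, hk, -, h3⟩ := exists_pow_mem_of_relIndex_ne_zero h h2
  refine hI i x hx (n * k) (Nat.mul_pos hn hk) ?_
  rw [pow_mul]
  have h4 : (x ^ n) ^ k ∈ J (i + 1) ⊓ H := h3.1
  exact h4.1

/-- Extensions of virtually polycyclic groups. -/
theorem vpoly_ext {Q : Type} [Group Q] (hQ : VPoly Q) : ∀ {G : Type} [Group G] (f : G →* Q),
    VPoly f.ker → VPoly G := by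
  induction hQ with
  | @trivial Q _ h =>
    intro G _ f hf
    have h1 : f.ker = ⊤ := by
      rw [eq_top_iff]
      intro x _
      exact Subsingleton.elim _ _
    rw [h1] at hf
    exact PE.vpoly_of_injective hf (topEquiv (G := G)).symm.toMonoidHom
      (topEquiv (G := G)).symm.injective
  | @step Q _ N _ hN h ih =>
    intro G _ f hf
    have hM : VPoly (N.comap f) := by
      refine ih ((f.comp (N.comap f).subtype).codRestrict N fun x => x.2) ?_
      refine PE.vpoly_of_injective hf
        { toFun := fun x => ⟨((x : N.comap f) : G), by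
            have h1 : _ = (1 : N) := x.2
            exact congrArg Subtype.val h1⟩
          map_one' := rfl
          map_mul' := fun a b => rfl } ?_
      intro x y hxy
      exact Subtype.ext (Subtype.ext (congrArg (fun z : f.ker => (z : G)) hxy))
    refine PE.VPoly.step (N.comap f) hM ?_
    let F : G ⧸ N.comap f →* Q ⧸ N := QuotientGroup.map _ _ f le_rfl
    have hF : Function.Injective F := by
      rw [injective_iff_map_eq_one]
      intro z hz
      obtain ⟨x, rfl⟩ := QuotientGroup.mk_surjective z
      rw [QuotientGroup.eq_one_iff]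
      exact (QuotientGroup.eq_one_iff (f x)).1 hz
    rcases h with h | h
    · exact Or.inl (isCyclic_of_injective F hF)
    · exact Or.inr (Finite.of_injective F hF)

theorem vpoly_of_cyclic {G : Type} [Group G] (h : IsCyclic G) : VPoly G := by
  refine PE.VPoly.step ⊥ (PE.VPoly.trivial inferInstance) (Or.inl ?_)
  exact isCyclic_of_surjective (QuotientGroup.mk' (⊥ : Subgroup G))
    (QuotientGroup.mk'_surjective _)

/-- Finitely generated abelian groups are polycyclic. -/
theorem vpoly_of_comm (n : ℕ) : ∀ (A : Type) [Group A] (S : Finset A), S.card ≤ n →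
    (∀ a b : A, a * b = b * a) → closure (S : Set A) = ⊤ → VPoly A := by
  classical
  induction n with
  | zero =>
    intro A _ S hS _ hcl
    have h0 : S = ∅ := Finset.card_eq_zero.1 (Nat.le_zero.1 hS)
    subst h0
    refine PE.VPoly.trivial ?_
    rw [← Subgroup.subsingleton_iff]
    simp only [Finset.coe_empty, Subgroup.closure_empty] at hcl
    exact subsingleton_of_bot_eq_top hcl
  | succ n ih =>
    intro A _ S hS hc hcl
    rcases S.eq_empty_or_nonempty with h0 | ⟨s, hs⟩
    · exact ih A S (by rw [h0]; simp) hc hcl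
    have hn : (zpowers s).Normal := ⟨fun a ha g => by
      rw [hc g a, mul_inv_cancel_right]
      exact ha⟩
    refine vpoly_ext (Q := A ⧸ zpowers s) ?_ (QuotientGroup.mk' (zpowers s)) ?_
    · refine ih (A ⧸ zpowers s) ((S.erase s).image (QuotientGroup.mk' (zpowers s))) ?_ ?_ ?_
      · refine Finset.card_image_le.trans ?_
        rw [Finset.card_erase_of_mem hs]
        omega
      · intro a b
        obtain ⟨a, rfl⟩ := QuotientGroup.mk_surjective a
        obtain ⟨b, rfl⟩ := QuotientGroup.mk_surjective b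
        exact congrArg QuotientGroup.mk (hc a b)
      · rw [eq_top_iff, ← Subgroup.map_top_of_surjective _ (QuotientGroup.mk'_surjective
          (zpowers s)), ← hcl, MonoidHom.map_closure, Subgroup.closure_le]
        rintro _ ⟨x, hx, rfl⟩
        by_cases hxs : x = s
        · subst hxs
          have : (QuotientGroup.mk' (zpowers x)) x = 1 :=
            (QuotientGroup.eq_one_iff _).2 (Subgroup.mem_zpowers x)
          rw [this]
          exact Subgroup.one_mem _
        · apply Subgroup.subset_closure
          simp only [Finset.coe_image, Set.mem_image, Finset.mem_coe, Finset.mem_erase]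
          exact ⟨x, ⟨hxs, hx⟩, rfl⟩
    · rw [QuotientGroup.ker_mk']
      exact vpoly_of_cyclic inferInstance

/-- Finitely generated nilpotent groups are polycyclic. -/
theorem vpoly_of_nilpotent (G : Type) [Group G] [Group.IsNilpotent G] : Group.FG G → VPoly G := by
  refine Group.nilpotent_center_quotient_ind (P := fun G _ _ => Group.FG G → VPoly G) G ?_ ?_
  · intro G _ _ _
    exact PE.VPoly.trivial inferInstance
  · intro G _ _ ih hG
    have hQfg : Group.FG (G ⧸ Subgroup.center G) := inferInstance
    refine vpoly_ext (ih hQfg) (QuotientGroup.mk' (center G)) ?_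
    rw [QuotientGroup.ker_mk']
    obtain ⟨S, hS⟩ := (Group.fg_iff_subgroup_fg _).2
      ((MP_52ecc8_gt_h60.nilpotent_noeth G hG).2 (center G))
    refine vpoly_of_comm S.card _ S le_rfl (fun a b => ?_) hS
    exact Subtype.ext (Subgroup.mem_center_iff.1 b.2 a.1)

end Pool.Agent.HN
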