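import Pool.Agent.Lib.MP_98022b_hn.TreeBasic

/-!
# Groups acting on trees without inversions with chains of pointwise stabilizers
-/

set_option autoImplicit false

open scoped Pointwise

namespace Pool.Agent.HN

open SimpleGraph
open Pool.Agent.CCC (IsMedianGraph IsomCube IsCubeSet)
open Pool.Agent.FJ (IsFJClass IsFJClassT)

variable {L V : Type} [Group L] [MulAction L V] {T : SimpleGraph V}

/-- A cube is not empty. -/
theorem cubeSet_nonempty {C : Set V} (hC : IsCubeSet T C) : C.Nonempty := by
  obtain ⟨n, e, -, rfl⟩ := hC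
  exact Set.range_nonempty e

/-- An element which preserves a cube of a tree and is not an inversion fixes its vertices. -/
theorem smul_eq_of_cube (hT : T.IsTree)
    (hinv : ∀ (g : L) u v, T.Adj u v → g • u = v → g • v ≠ u) {C : Set V} (hC : IsCubeSet T C)
    {g : L} (hg : g • C = C) {v : V} (hv : v ∈ C) : g • v = v := by
  have hd : ∀ x ∈ C, ∀ y ∈ C, T.dist x y ≤ 1 := fun x hx y hy => dist_cube_le hT hC hx hy
  have hm : ∀ x ∈ C, g • x ∈ C := fun x hx => by
    have := Set.smul_mem_smul_set (a := g) hx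
    rwa [hg] at this
  have hadj : ∀ x ∈ C, ∀ y ∈ C, x ≠ y → T.Adj x y := fun x hx y hy hxy => by
    have h0 : T.dist x y ≠ 0 := fun h0 => hxy (hT.connected.dist_eq_zero_iff.1 h0)
    have h1 := hd x hx y hy
    exact SimpleGraph.dist_eq_one_iff_adj.1 (by omega)
  by_contra hne
  have h1 := hadj v hv (g • v) (hm v hv) (Ne.symm hne)
  have h2 : g • g • v ≠ v := hinv g v (g • v) h1 rfl
  have h3 : g • g • v ≠ g • v := fun h => hne (MulAction.injective g h)
  have h4 := hadj v hv (g • g • v) (hm _ (hm v hv)) h2.symm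
  have h5 := hadj (g • v) (hm v hv) (g • g • v) (hm _ (hm v hv)) h3.symm
  -- a triangle in a tree
  rcases Pool.Agent.Lib.MP_140312_al_SG.tree_adj_dist hT v h5 with h6 | h6
  · rw [SimpleGraph.dist_eq_one_iff_adj.2 h1, SimpleGraph.dist_eq_one_iff_adj.2 h4] at h6
    omega
  · rw [SimpleGraph.dist_eq_one_iff_adj.2 h1, SimpleGraph.dist_eq_one_iff_adj.2 h4] at h6
    omega

/-- The stabilizer of cubes is the pointwise stabilizer of the vertices. -/
theorem fixing_cubes (hT : T.IsTree)
    (hinv : ∀ (g : L) u v, T.Adj u v → g • u = v → g • v ≠ u) {S : Set (Set V)}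
    (hS : ∀ C ∈ S, IsCubeSet T C) : fixingSubgroup L S = fixingSubgroup L (⋃₀ S) := by
  ext g
  rw [mem_fixingSubgroup_iff, mem_fixingSubgroup_iff]
  constructor
  · rintro h v ⟨C, hC, hv⟩
    exact smul_eq_of_cube hT hinv (hS C hC) (h C hC) hv
  · intro h C hC
    ext v
    constructor
    · rintro ⟨w, hw, rfl⟩
      show g • w ∈ C
      rwa [h w ⟨C, hC, hw⟩]
    · intro hv
      exact ⟨v, hv, h v ⟨C, hC, hv⟩⟩

/-- Let `L` act on a tree without inversions. If the stabilizers of the vertices are in the class,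
increasing sequences of sets of vertices have an early step which does not change the pointwise
stabilizer, and the groups generated by a pointwise stabilizer and a normalizing element are in the
class, then `L` is in the class. -/
theorem mem_of_tree_fix {P : ∀ (G : Type) [Group G], Prop} (hP : IsFJClassT P) (hT : T.IsTree)
    (hadj : ∀ (g : L) u v, T.Adj u v → T.Adj (g • u) (g • v))
    (hinv : ∀ (g : L) u v, T.Adj u v → g • u = v → g • v ≠ u)
    (hv : ∀ v : V, P (MulAction.stabilizer L v)) (l : ℕ)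
    (hchain : ∀ W : ℕ → Set V, (W 0).Nonempty → (∀ i, W i ⊆ W (i + 1)) →
      ∃ i < l, fixingSubgroup L (W i) = fixingSubgroup L (W (i + 1)))
    (hnorm : ∀ W : Set V, W.Nonempty → ∀ t : L,
      (∀ j, j ∈ fixingSubgroup L W ↔ t * j * t⁻¹ ∈ fixingSubgroup L W) →
      P (fixingSubgroup L W ⊔ Subgroup.zpowers t : Subgroup L)) : P L := by
  have hact : ∀ (g : L) u v, T.Adj (g • u) (g • v) ↔ T.Adj u v := fun g u v =>
    ⟨fun h => by
      have h1 := hadj g⁻¹ _ _ h
      rwa [inv_smul_smul, inv_smul_smul] at h1, hadj g u v⟩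
  have hne : ∀ S : Set (Set V), (∀ C ∈ S, IsCubeSet T C) →
      (∃ C ∈ S, ∃ C' ∈ S, ∀ x ∈ C, ∀ y ∈ C', 1 ≤ T.dist x y) → (⋃₀ S).Nonempty := by
    rintro S hS ⟨C, hC, -⟩
    obtain ⟨x, hx⟩ := cubeSet_nonempty (hS C hC)
    exact ⟨x, C, hC, hx⟩
  refine Pool.Agent.CCC.mem_of_median hP (isMedianGraph_of_tree hT) hact
    (isomCube_le_one hT) 1 l hv ?_ ?_
  · intro S _ hS hmono hfar
    obtain ⟨i, hi, h⟩ := hchain (fun i => ⋃₀ (S i)) (hne _ (hS 0) hfar)
      (fun i => Set.sUnion_mono (hmono i))
    refine ⟨i, hi, ?_⟩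
    rw [fixing_cubes hT hinv (hS i), fixing_cubes hT hinv (hS (i + 1))]
    exact h
  · intro S _ hS hfar t ht
    have h1 := fixing_cubes hT hinv hS
    rw [h1] at ht ⊢
    exact hnorm _ (hne _ hS hfar) t ht

/-- If powers of an element which fixes one end of an edge fix the other end only if the element
does, then the same holds for all pairs of vertices. -/
theorem smul_eq_of_pow (hT : T.IsTree) (hadj : ∀ (g : L) u v, T.Adj u v → T.Adj (g • u) (g • v))
    (hiso : ∀ u v, T.Adj u v → ∀ g : L, g • u = u → ∀ n : ℕ, 0 < n → g ^ n • v = v → g • v = v)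
    {g : L} {x : V} (hx : g • x = x) {n : ℕ} (hn : 0 < n) {y : V} (hy : g ^ n • y = y) :
    g • y = y := by
  obtain ⟨p, hp⟩ := hT.connected.exists_isPath x y
  have key : ∀ {x y : V} (p : T.Walk x y), g • x = x → (∀ z ∈ p.support, g ^ n • z = z) →
      g • y = y := by
    intro x y p
    induction p with
    | nil => exact fun h _ => h
    | @cons x z y h p ih =>
      intro h1 h2
      refine ih ?_ fun w hw => h2 w ?_
      · exact hiso _ _ h g h1 n hn (h2 z (by simp))
      · rw [Walk.support_cons]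
        exact List.mem_cons_of_mem _ hw
  have hxn : g ^ n • x = x := by
    have : ∀ m : ℕ, g ^ m • x = x := by
      intro m
      induction m with
      | zero => rw [pow_zero, one_smul]
      | succ m ih => rw [pow_succ, mul_smul, hx, ih]
    exact this n
  exact key p hx (smul_path hT hadj hxn hy p hp)

end Pool.Agent.HN
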