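import Pool.Agent.Lib.MP_98022b_hn.HNNTree
import Pool.Agent.Lib.MP_98022b_hn.TreeFix
import Pool.Agent.Lib.MP_98022b_hn.Iso

/-!
# HNN extensions of torsion-free nilpotent groups along isolated subgroups and of finite groups
-/

set_option autoImplicit false

namespace Pool.Agent.HN

open SimpleGraph HNNExtension
open Pool.Agent.FJ (IsFJClass IsFJClassT)
open Pool.Agent.Biset (VP)

section sup

variable {L : Type} [Group L] {F : Subgroup L} {t : L}

theorem mem_sup_zpowers (ht : ∀ j, j ∈ F ↔ t * j * t⁻¹ ∈ F) {x : L}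
    (hx : x ∈ F ⊔ Subgroup.zpowers t) :
    (∀ g ∈ F, x * g * x⁻¹ ∈ F) ∧ ∃ f ∈ F, ∃ n : ℤ, x = f * t ^ n := by
  have hn : ∀ (n : ℤ) (g : L), g ∈ F → t ^ n * g * (t ^ n)⁻¹ ∈ F := by
    intro n g hg
    have h1 : t ∈ Subgroup.normalizer (F : Set L) := Subgroup.mem_normalizer_iff.2 ht
    exact (Subgroup.mem_normalizer_iff.1 (zpow_mem h1 n) g).1 hg
  obtain ⟨S, hS⟩ : ∃ S : Subgroup L, ∀ y, y ∈ S ↔ ∃ f ∈ F, ∃ n : ℤ, y = f * t ^ n := by
    refine ⟨⟨⟨⟨{y | ∃ f ∈ F, ∃ n : ℤ, y = f * t ^ n}, ?_⟩, ?_⟩, ?_⟩, fun y => Iff.rfl⟩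
    · rintro _ _ ⟨f, hf, n, rfl⟩ ⟨g, hg, m, rfl⟩
      refine ⟨f * (t ^ n * g * (t ^ n)⁻¹), F.mul_mem hf (hn n g hg), n + m, ?_⟩
      rw [zpow_add]
      group
    · exact ⟨1, F.one_mem, 0, by simp⟩
    · rintro _ ⟨f, hf, n, rfl⟩
      refine ⟨t ^ (-n) * f⁻¹ * (t ^ (-n))⁻¹, hn _ _ (F.inv_mem hf), -n, ?_⟩
      group
  have h1 : F ⊔ Subgroup.zpowers t ≤ S := by
    refine sup_le (fun f hf => (hS f).2 ⟨f, hf, 0, by simp⟩) ?_
    rw [Subgroup.zpowers_le]
    exact (hS t).2 ⟨1, F.one_mem, 1, by simp⟩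
  obtain ⟨f, hf, n, rfl⟩ := (hS x).1 (h1 hx)
  refine ⟨fun g hg => ?_, f, hf, n, rfl⟩
  have h2 : f * t ^ n * g * (f * t ^ n)⁻¹ = f * (t ^ n * g * (t ^ n)⁻¹) * f⁻¹ := by group
  rw [h2]
  exact F.mul_mem (F.mul_mem hf (hn n g hg)) (F.inv_mem hf)

/-- Cyclic extensions of solvable groups are solvable. -/
theorem solvable_sup (ht : ∀ j, j ∈ F ↔ t * j * t⁻¹ ∈ F) (hF : Group.IsSolvable F) :
    Group.IsSolvable (F ⊔ Subgroup.zpowers t : Subgroup L) := by
  have hJE : F ≤ F ⊔ Subgroup.zpowers t := le_sup_left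
  have htE : t ∈ F ⊔ Subgroup.zpowers t := Subgroup.mem_sup_right (Subgroup.mem_zpowers t)
  have hnorm : (F.subgroupOf (F ⊔ Subgroup.zpowers t)).Normal := by
    refine ⟨fun n hn g => ?_⟩
    rw [Subgroup.mem_subgroupOf] at hn ⊢
    exact (mem_sup_zpowers ht g.2).1 n hn
  have hcyc : IsCyclic ((F ⊔ Subgroup.zpowers t : Subgroup L) ⧸
      F.subgroupOf (F ⊔ Subgroup.zpowers t)) := by
    refine ⟨QuotientGroup.mk ⟨t, htE⟩, fun x => ?_⟩
    obtain ⟨y, rfl⟩ := QuotientGroup.mk_surjective x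
    obtain ⟨-, f, hf, n, hy⟩ := mem_sup_zpowers ht y.2
    refine Subgroup.mem_zpowers_iff.2 ⟨n, ?_⟩
    have h1 : y = ⟨f, hJE hf⟩ * (⟨t, htE⟩ : (F ⊔ Subgroup.zpowers t : Subgroup L)) ^ n :=
      Subtype.ext (by simpa using hy)
    have h2 : ((⟨f, hJE hf⟩ : (F ⊔ Subgroup.zpowers t : Subgroup L)) :
        (F ⊔ Subgroup.zpowers t : Subgroup L) ⧸ F.subgroupOf (F ⊔ Subgroup.zpowers t)) = 1 :=
      (QuotientGroup.eq_one_iff _).2 hf
    rw [h1, QuotientGroup.mk_mul, h2, one_mul]
    rfl
  refine (Group.isSolvable_iff_subgroup_quotient (F.subgroupOf (F ⊔ Subgroup.zpowers t))).2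
    ⟨?_, ?_⟩
  · exact Group.isSolvable_of_isSolvable_injective
      (f := (Subgroup.subgroupOfEquivOfLe hJE).toMonoidHom)
      (Subgroup.subgroupOfEquivOfLe hJE).injective
  · refine Group.isSolvable_of_comm fun a b => ?_
    let := IsCyclic.commGroup (α := (F ⊔ Subgroup.zpowers t : Subgroup L) ⧸
      F.subgroupOf (F ⊔ Subgroup.zpowers t))
    exact mul_comm a b

/-- In a cyclic extension of a finite group the cyclic group has finite index. -/
theorem finiteIndex_sup (ht : ∀ j, j ∈ F ↔ t * j * t⁻¹ ∈ F) (hF : Finite F) :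
    ((Subgroup.zpowers t).subgroupOf (F ⊔ Subgroup.zpowers t)).FiniteIndex := by
  have hJE : F ≤ F ⊔ Subgroup.zpowers t := le_sup_left
  have hs : Function.Surjective (fun f : F => ((⟨f, hJE f.2⟩ :
      (F ⊔ Subgroup.zpowers t : Subgroup L)) : (F ⊔ Subgroup.zpowers t : Subgroup L) ⧸
        (Subgroup.zpowers t).subgroupOf (F ⊔ Subgroup.zpowers t))) := by
    intro x
    obtain ⟨y, rfl⟩ := QuotientGroup.mk_surjective x
    obtain ⟨-, f, hf, n, hy⟩ := mem_sup_zpowers ht y.2
    refine ⟨⟨f, hf⟩, ?_⟩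
    rw [QuotientGroup.eq, Subgroup.mem_subgroupOf]
    show f⁻¹ * (y : L) ∈ _
    rw [hy, inv_mul_cancel_left]
    exact zpow_mem (Subgroup.mem_zpowers t) n
  have := Finite.of_surjective _ hs
  exact Subgroup.finiteIndex_of_finite_quotient

end sup

variable {G : Type} [Group G] {A B : Subgroup G} {φ : A ≃* B}

/-- Britton's lemma for a conjugate of an element of the base group. -/
theorem mem_of_conj {e : ℤˣ} {c d : G}
    (h : t ^ (e : ℤ) * of c * t ^ (-(e : ℤ)) = (of d : HNNExtension G A B φ)) :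
    c ∈ toSubgroup A B e := by
  by_contra hc
  let w : NormalWord.ReducedWord G A B := ⟨1, [(e, c), (-e, 1)], by
    rw [List.isChain_cons_cons]
    exact ⟨fun h0 => absurd h0 hc, List.isChain_singleton _⟩⟩
  have hw : w.prod φ = of d := by
    rw [← h]
    simp only [w, NormalWord.ReducedWord.prod, List.map_cons, List.prod_cons, List.map_nil,
      List.prod_nil, map_one, one_mul, mul_one, Units.val_neg]
  have h6 := ReducedWord.toList_eq_nil_of_mem_of_range (φ := φ) w (by rw [hw]; exact ⟨d, rfl⟩)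
  exact List.cons_ne_nil _ _ h6

theorem hT_inv (x : HNNExtension G A B φ) (u v : HV φ) (h : (hT φ).Adj u v) (hx : x • u = v) :
    x • v ≠ u := by
  obtain ⟨g, e, rfl, rfl⟩ := h
  intro hv
  have h1 : vx (x * g) = vx (g * t ^ (e : ℤ)) := hx
  have h2 : vx (x * (g * t ^ (e : ℤ))) = vx g := hv
  obtain ⟨b, hb⟩ := vx_eq.1 h1
  obtain ⟨c, hc⟩ := vx_eq.1 h2
  have h3 := congrArg (fun z => Multiplicative.toAdd (expo (φ := φ) z)) hb
  have h4 := congrArg (fun z => Multiplicative.toAdd (expo (φ := φ) z)) hc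
  simp only [map_mul, map_zpow, expo_of, expo_t, toAdd_mul, toAdd_zpow, toAdd_ofAdd,
    smul_eq_mul, mul_one] at h3 h4
  have h5 : (e : ℤ) ≠ 0 := e.ne_zero
  omega

/-- Edges are isolated if the associated subgroups are. -/
theorem hT_isol (hA : Isol A) (hB : Isol B) (u v : HV φ) (h : (hT φ).Adj u v)
    (x : HNNExtension G A B φ) (hx : x • u = u) (n : ℕ) (hn : 0 < n) (hxn : x ^ n • v = v) :
    x • v = v := by
  obtain ⟨g, e, rfl, rfl⟩ := h
  obtain ⟨b, rfl⟩ := stab_vx.1 hx
  obtain ⟨c, hc⟩ := stab_vx.1 hxn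
  have h1 : (g * of b * g⁻¹) ^ n = g * of (b ^ n) * g⁻¹ := by rw [conj_pow, map_pow]
  have h2 : t ^ ((-e : ℤˣ) : ℤ) * of (b ^ n) * t ^ (-((-e : ℤˣ) : ℤ)) =
      (of c : HNNExtension G A B φ) := by
    rw [Units.val_neg, neg_neg]
    have h3 : (of (b ^ n) : HNNExtension G A B φ) = t ^ (e : ℤ) * of c * t ^ (-(e : ℤ)) := by
      have h4 := h1.symm.trans hc
      have h5 : g * of (b ^ n) * g⁻¹ = g * (t ^ (e : ℤ) * of c * t ^ (-(e : ℤ))) * g⁻¹ := by
        rw [h4, mul_inv_rev, zpow_neg]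
        simp only [mul_assoc]
      exact mul_left_cancel (mul_right_cancel h5)
    rw [h3, zpow_neg]
    group
  have h3 := mem_of_conj h2
  have h4 : b ∈ toSubgroup A B (-e) := by
    rcases Int.units_eq_one_or (-e) with h5 | h5
    · rw [h5] at h3 ⊢
      exact hA b n hn h3
    · rw [h5] at h3 ⊢
      exact hB b n hn h3
  have h5 := back (φ := φ) g h4
  rw [Units.val_neg, neg_neg] at h5
  have h6 : (g * of b * g⁻¹) • (vx (g * t ^ (e : ℤ)) : HV φ) = vx (g * of b * t ^ (e : ℤ)) := by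
    have : (g * of b * g⁻¹) * (g * t ^ (e : ℤ)) = g * of b * t ^ (e : ℤ) := by
      simp only [mul_assoc, inv_mul_cancel_left]
    rw [← this]
    rfl
  rw [h6, h5]

/-- the conjugated inclusion of the base group -/
def cof (g : HNNExtension G A B φ) : G →* HNNExtension G A B φ :=
  (MulAut.conj g).toMonoidHom.comp of

theorem cof_apply (g : HNNExtension G A B φ) (b : G) : cof g b = g * of b * g⁻¹ := rfl

theorem cof_injective (g : HNNExtension G A B φ) : Function.Injective (cof (φ := φ) g) :=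
  (MulAut.conj g).injective.comp (of_injective φ)

theorem stab_le (g : HNNExtension G A B φ) :
    MulAction.stabilizer (HNNExtension G A B φ) (vx g : HV φ) = (cof g).range := by
  ext x
  rw [MulAction.mem_stabilizer_iff, stab_vx]
  constructor
  · rintro ⟨b, rfl⟩
    exact ⟨b, rfl⟩
  · rintro ⟨b, rfl⟩
    exact ⟨b, rfl⟩

theorem map_comap_of_le {g : HNNExtension G A B φ} {J : Subgroup (HNNExtension G A B φ)}
    (h : J ≤ MulAction.stabilizer (HNNExtension G A B φ) (vx g : HV φ)) :
    (J.comap (cof g)).map (cof g) = J := by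
  rw [Subgroup.map_comap_eq_self]
  rw [← stab_le]
  exact h

variable {P : ∀ (G : Type) [Group G], Prop}

/-- HNN extensions over base groups in the class with good chains. -/
theorem hnn_mem (hP : IsFJClassT P) (hG : P G) (l : ℕ)
    (hchain : ∀ (g : HNNExtension G A B φ) (W : ℕ → Set (HV φ)), vx g ∈ W 0 →
      (∀ i, W i ⊆ W (i + 1)) → ∃ i < l,
        (fixingSubgroup (HNNExtension G A B φ) (W i)).comap (cof g) =
        (fixingSubgroup (HNNExtension G A B φ) (W (i + 1))).comap (cof g))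
    (hnorm : ∀ J : Subgroup (HNNExtension G A B φ), (∃ g, J ≤ (cof g).range) →
      ∀ t : HNNExtension G A B φ, (∀ j, j ∈ J ↔ t * j * t⁻¹ ∈ J) →
      P (J ⊔ Subgroup.zpowers t : Subgroup (HNNExtension G A B φ))) :
    P (HNNExtension G A B φ) := by
  have hle : ∀ (W : Set (HV φ)) (g : HNNExtension G A B φ), vx g ∈ W →
      fixingSubgroup (HNNExtension G A B φ) W ≤
      MulAction.stabilizer (HNNExtension G A B φ) (vx g : HV φ) := by
    intro W g hg x hx
    exact (mem_fixingSubgroup_iff _).1 hx _ hg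
  refine mem_of_tree_fix hP (hT_isTree (φ := φ)) (fun g u v h => hT_smul g h)
    (fun g u v h h' => hT_inv g u v h h') ?_ l ?_ ?_
  · intro v
    obtain ⟨g, rfl⟩ := QuotientGroup.mk_surjective v
    have h := stab_le (φ := φ) g
    rw [show (QuotientGroup.mk g : HV φ) = vx g from rfl, h]
    exact hP.toIsFJClass.of_equiv (MonoidHom.ofInjective (cof_injective g)).symm hG
  · intro W hW hmono
    obtain ⟨v, hv⟩ := hW
    obtain ⟨g, rfl⟩ := QuotientGroup.mk_surjective v
    obtain ⟨i, hi, h⟩ := hchain g W hv hmono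
    refine ⟨i, hi, ?_⟩
    have hmem : ∀ j, vx g ∈ W j := by
      intro j
      induction j with
      | zero => exact hv
      | succ j ih => exact hmono j ih
    rw [← map_comap_of_le (hle _ _ (hmem i)), ← map_comap_of_le (hle _ _ (hmem (i + 1))), h]
  · intro W hW t ht
    obtain ⟨v, hv⟩ := hW
    obtain ⟨g, rfl⟩ := QuotientGroup.mk_surjective v
    exact hnorm _ ⟨g, stab_le (φ := φ) g ▸ hle W g hv⟩ t ht

/-- HNN extensions of torsion-free nilpotent groups of finite rank along isolated subgroups. -/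
theorem hnn_mem_isol (hP : IsFJClassT P) (hsol : ∀ (G : Type) [Group G], Group.IsSolvable G → P G)
    (hnil : Group.IsNilpotent G) (H : Subgroup G) {m : ℕ} (hH : VP m H) (hGH : ∀ x, HasPow H x)
    (hA : Isol A) (hB : Isol B) : P (HNNExtension G A B φ) := by
  refine hnn_mem hP (hsol G inferInstance) (m + 1) ?_ ?_
  · intro g W hg hmono
    have hanti : ∀ i, fixingSubgroup (HNNExtension G A B φ) (W (i + 1)) ≤
        fixingSubgroup (HNNExtension G A B φ) (W i) := by
      intro i x hx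
      rw [mem_fixingSubgroup_iff] at hx ⊢
      exact fun y hy => hx y (hmono i hy)
    have hmem : ∀ j, vx g ∈ W j := by
      intro j
      induction j with
      | zero => exact hg
      | succ j ih => exact hmono j ih
    have hI : ∀ i, ∀ x ∈ (fixingSubgroup (HNNExtension G A B φ) (W i)).comap (cof g), ∀ n : ℕ,
        0 < n → x ^ n ∈ (fixingSubgroup (HNNExtension G A B φ) (W (i + 1))).comap (cof g) →
        x ∈ (fixingSubgroup (HNNExtension G A B φ) (W (i + 1))).comap (cof g) := by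
      intro i x hx n hn hxn
      rw [Subgroup.mem_comap, mem_fixingSubgroup_iff] at hx hxn ⊢
      intro y hy
      refine smul_eq_of_pow (hT_isTree (φ := φ)) (fun g u v h => hT_smul g h)
        (fun u v h g hg n hn h' => hT_isol hA hB u v h g hg n hn h') (hx _ (hmem i)) hn ?_
      have h1 := hxn y hy
      rw [map_pow] at h1
      exact h1
    obtain ⟨i, hi, h⟩ := isol_chain H hH
      (fun i => (fixingSubgroup (HNNExtension G A B φ) (W i)).comap (cof g))
      (fun i => Subgroup.comap_mono (hanti i)) (fun x _ => hGH x) hI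
    exact ⟨i, Nat.lt_succ_of_le hi, h⟩
  · rintro J ⟨g, hg⟩ t ht
    refine hsol _ (solvable_sup ht ?_)
    have hJ : Group.IsSolvable (cof (φ := φ) g).range :=
      Group.isSolvable_of_surjective (f := (cof (φ := φ) g).rangeRestrict)
        (cof (φ := φ) g).rangeRestrict_surjective
    exact Group.isSolvable_of_isSolvable_injective (f := Subgroup.inclusion hg)
      (Subgroup.inclusion_injective hg)

/-- A descending sequence in a finite group has an early trivial step. -/
theorem fin_chain [Finite G] (J : ℕ → Subgroup G) (hJ : ∀ i, J (i + 1) ≤ J i) :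
    ∃ i < Nat.card G + 1, J i = J (i + 1) := by
  by_contra hne
  push Not at hne
  have key : ∀ i ≤ Nat.card G + 1, Nat.card (J i) + i ≤ Nat.card G := by
    intro i
    induction i with
    | zero =>
      intro _
      rw [add_zero]
      exact Subgroup.card_le_card_group _
    | succ i ih =>
      intro hi
      have h1 := ih (by omega)
      have h2 : J (i + 1) < J i := lt_of_le_of_ne (hJ i) (fun h => hne i (by omega) h.symm)
      have h3 : Nat.card (J (i + 1)) < Nat.card (J i) :=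
        Set.ncard_lt_ncard (by exact_mod_cast h2) (Set.toFinite _)
      omega
  have := key _ le_rfl
  omega

/-- HNN extensions of finite groups. -/
theorem hnn_mem_fin (hP : IsFJClassT P) (hsol : ∀ (G : Type) [Group G], Group.IsSolvable G → P G)
    [Finite G] : P (HNNExtension G A B φ) := by
  refine hnn_mem hP ?_ (Nat.card G + 1) ?_ ?_
  · refine hP.toIsFJClass.of_finiteIndex (⊥ : Subgroup G) inferInstance ?_
    exact hsol _ inferInstance
  · intro g W hg hmono
    refine fin_chain (fun i => (fixingSubgroup (HNNExtension G A B φ) (W i)).comap (cof g)) ?_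
    intro i
    refine Subgroup.comap_mono fun x hx => ?_
    rw [mem_fixingSubgroup_iff] at hx ⊢
    exact fun y hy => hx y (hmono i hy)
  · rintro J ⟨g, hg⟩ t ht
    have hfin : Finite (cof (φ := φ) g).range :=
      Finite.of_surjective _ (cof (φ := φ) g).rangeRestrict_surjective
    have hJ : Finite J := Finite.of_injective _ (Subgroup.inclusion_injective hg)
    refine hP.toIsFJClass.of_finiteIndex _ (finiteIndex_sup ht hJ) ?_
    refine hP.toIsFJClass.of_equiv (Subgroup.subgroupOfEquivOfLe (le_sup_right (a := J))) ?_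
    refine hsol _ (Group.isSolvable_of_comm fun a b => ?_)
    let := IsCyclic.commGroup (α := Subgroup.zpowers t)
    exact mul_comm a b

end Pool.Agent.HN
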