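import Mathlib

/-!
# The tree of an HNN extension
-/

set_option autoImplicit false

namespace Pool.Agent.HN

open SimpleGraph HNNExtension

variable {G : Type} [Group G] {A B : Subgroup G} {φ : A ≃* B}

/-- The vertices: the cosets of the base group. -/
abbrev HV (φ : A ≃* B) : Type :=
  HNNExtension G A B φ ⧸ (HNNExtension.of : G →* HNNExtension G A B φ).range

/-- the coset of an element -/
def vx (g : HNNExtension G A B φ) : HV φ := QuotientGroup.mk g

theorem vx_eq {g h : HNNExtension G A B φ} : vx g = vx h ↔ ∃ b : G, h = g * of b := by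
  rw [vx, vx, QuotientGroup.eq]
  constructor
  · rintro ⟨b, hb⟩
    exact ⟨b, by rw [hb, mul_inv_cancel_left]⟩
  · rintro ⟨b, rfl⟩
    exact ⟨b, by rw [inv_mul_cancel_left]⟩

theorem vx_mul_of (g : HNNExtension G A B φ) (b : G) : vx (g * of b) = vx g :=
  (vx_eq.2 ⟨b, rfl⟩).symm

/-- the exponent of the stable letter -/
def expo : HNNExtension G A B φ →* Multiplicative ℤ :=
  HNNExtension.lift 1 (Multiplicative.ofAdd 1) (by intro a; simp)

theorem expo_of (b : G) : expo (φ := φ) (of b) = 1 := by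
  rw [expo, HNNExtension.lift_of]
  rfl

theorem expo_t : expo (φ := φ) t = Multiplicative.ofAdd 1 := by
  rw [expo, HNNExtension.lift_t]

/-- the tree -/
def hT (φ : A ≃* B) : SimpleGraph (HV φ) where
  Adj u v := ∃ (g : HNNExtension G A B φ) (e : ℤˣ), u = vx g ∧ v = vx (g * t ^ (e : ℤ))
  symm := ⟨by
    rintro u v ⟨g, e, rfl, rfl⟩
    refine ⟨g * t ^ (e : ℤ), -e, rfl, ?_⟩
    rw [mul_assoc, ← zpow_add, Units.val_neg, add_neg_cancel, zpow_zero, mul_one]⟩
  loopless := ⟨by
    rintro u ⟨g, e, rfl, h⟩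
    obtain ⟨b, hb⟩ := vx_eq.1 h
    have h1 : t ^ (e : ℤ) = (of b : HNNExtension G A B φ) := mul_left_cancel hb
    have h2 := congrArg (expo (φ := φ)) h1
    rw [map_zpow, expo_of, expo_t] at h2
    have h3 := congrArg Multiplicative.toAdd h2
    rw [toAdd_zpow, toAdd_one, toAdd_ofAdd, smul_eq_mul, mul_one] at h3
    exact e.ne_zero h3⟩

theorem hT_adj_t (g : HNNExtension G A B φ) (e : ℤˣ) :
    (hT φ).Adj (vx g) (vx (g * t ^ (e : ℤ))) := ⟨g, e, rfl, rfl⟩

theorem hT_smul (x : HNNExtension G A B φ) {u v : HV φ} (h : (hT φ).Adj u v) :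
    (hT φ).Adj (x • u) (x • v) := by
  obtain ⟨g, e, rfl, rfl⟩ := h
  exact ⟨x * g, e, rfl, by rw [mul_assoc]; rfl⟩

theorem hT_connected : (hT φ).Connected := by
  have key : ∀ s a : HNNExtension G A B φ, (hT φ).Reachable (vx a) (vx (a * s)) := by
    intro s
    induction s using HNNExtension.induction_on with
    | of b =>
      intro a
      rw [vx_mul_of]
    | t =>
      intro a
      have h := hT_adj_t (φ := φ) a 1
      rw [Units.val_one, zpow_one] at h
      exact h.reachable
    | mul x y hx hy =>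
      intro a
      rw [← mul_assoc]
      exact (hx a).trans (hy _)
    | inv x hx =>
      intro a
      have h := (hx (a * x⁻¹)).symm
      rw [inv_mul_cancel_right] at h
      exact h
  refine { preconnected := fun u v => ?_, nonempty := ⟨vx 1⟩ }
  obtain ⟨a, rfl⟩ := QuotientGroup.mk_surjective u
  obtain ⟨b, rfl⟩ := QuotientGroup.mk_surjective v
  have h := key (a⁻¹ * b) a
  rw [mul_inv_cancel_left] at h
  exact h

/-- the product of a list of syllables -/
def lprod (φ : A ≃* B) (L : List (ℤˣ × G)) : HNNExtension G A B φ :=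
  (L.map fun x => t ^ (x.1 : ℤ) * of x.2).prod

/-- a chain without reductions -/
def Red (A B : Subgroup G) (L : List (ℤˣ × G)) : Prop :=
  L.IsChain fun a b => a.2 ∈ toSubgroup A B a.1 → a.1 = b.1

theorem back (g : HNNExtension G A B φ) {u : ℤˣ} {b : G} (hb : b ∈ toSubgroup A B u) :
    vx (g * of b * t ^ (-(u : ℤ))) = vx (g * t ^ (-(u : ℤ))) := by
  rcases Int.units_eq_one_or u with rfl | rfl
  · have h := HNNExtension.of_mul_inv_t (φ := φ) ⟨b, hb⟩
    have h1 : g * of b * t ^ (-((1 : ℤˣ) : ℤ)) = g * t ^ (-((1 : ℤˣ) : ℤ)) *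
        of (φ ⟨b, hb⟩ : G) := by
      rw [Units.val_one, zpow_neg, zpow_one, mul_assoc, h, mul_assoc]
    rw [h1, vx_mul_of]
  · have h := HNNExtension.of_mul_t (φ := φ) ⟨b, hb⟩
    have h1 : g * of b * t ^ (-((-1 : ℤˣ) : ℤ)) = g * t ^ (-((-1 : ℤˣ) : ℤ)) *
        of (φ.symm ⟨b, hb⟩ : G) := by
      rw [Units.val_neg, Units.val_one, neg_neg, zpow_one, mul_assoc, h, mul_assoc]
    rw [h1, vx_mul_of]

theorem exists_step {g : HNNExtension G A B φ} {v : HV φ} (h : (hT φ).Adj (vx g) v) :
    ∃ (b : G) (e : ℤˣ), v = vx (g * of b * t ^ (e : ℤ)) := by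
  obtain ⟨g', e, h1, rfl⟩ := h
  obtain ⟨b, rfl⟩ := vx_eq.1 h1
  exact ⟨b, e, rfl⟩

theorem exists_word : ∀ {x y : HV φ} (p : (hT φ).Walk x y), p.IsPath →
    ∀ (g : HNNExtension G A B φ) (u : ℤˣ), x = vx g →
      (0 < p.length → p.snd ≠ vx (g * t ^ (-(u : ℤ)))) →
      ∃ (b : G) (L : List (ℤˣ × G)), L.length = p.length ∧ Red A B ((u, b) :: L) ∧
        y = vx (g * of b * lprod φ L) := by
  intro x y p
  induction p with
  | nil =>
    intro _ g u hx _
    exact ⟨1, [], rfl, List.isChain_singleton _, by simp [lprod, hx]⟩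
  | @cons x x' y h p ih =>
    intro hp g u hx ha
    subst hx
    have ha' := ha (by simp)
    rw [Walk.snd_cons] at ha'
    rw [Walk.cons_isPath_iff] at hp
    obtain ⟨b, e, hb⟩ := exists_step h
    obtain ⟨b', L, h1, h2, h3⟩ := ih hp.1 (g * of b * t ^ (e : ℤ)) e hb (by
      intro h0 hs
      apply hp.2
      have h7 : g * of b * t ^ (e : ℤ) * t ^ (-(e : ℤ)) = g * of b := by
        rw [mul_assoc, ← zpow_add, add_neg_cancel, zpow_zero, mul_one]
      rw [h7, vx_mul_of] at hs
      rw [← hs]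
      exact Walk.getVert_mem_support _ 1)
    refine ⟨b, (e, b') :: L, by rw [List.length_cons, h1, Walk.length_cons], ?_, ?_⟩
    · rw [Red, List.isChain_cons_cons]
      refine ⟨fun h4 => ?_, h2⟩
      by_contra h5
      apply ha'
      have h6 : (e : ℤ) = -(u : ℤ) := by
        rcases Int.units_eq_one_or u with hu | hu <;> rcases Int.units_eq_one_or e with he | he
        · exact absurd (hu.trans he.symm) h5
        · rw [hu, he]; simp
        · rw [hu, he]; simp
        · exact absurd (hu.trans he.symm) h5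
      rw [hb, h6]
      exact back g h4
    · rw [h3]
      congr 1
      simp only [lprod, List.map_cons, List.prod_cons, mul_assoc]

theorem hT_isAcyclic : (hT φ).IsAcyclic := by
  intro v c hc
  cases c with
  | nil => exact hc.ne_nil rfl
  | @cons _ x _ hadj p =>
    have hp : p.IsPath := ((Walk.cons_isCycle_iff p hadj).1 hc).1
    have h3 := hc.three_le_length
    rw [Walk.length_cons] at h3
    obtain ⟨g, rfl⟩ : ∃ g, vx g = v := QuotientGroup.mk_surjective v
    obtain ⟨b, e, hb⟩ := exists_step hadj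
    obtain ⟨b', L, h1, h2, h4⟩ := exists_word p hp (g * of b * t ^ (e : ℤ)) e hb (by
      intro _ hs
      have h7 : g * of b * t ^ (e : ℤ) * t ^ (-(e : ℤ)) = g * of b := by
        rw [mul_assoc, ← zpow_add, add_neg_cancel, zpow_zero, mul_one]
      rw [h7, vx_mul_of] at hs
      have h1 : p.getVert 1 = p.getVert p.length := by
        rw [Walk.getVert_length]
        exact hs
      have := hp.getVert_injOn (by simp; omega) (by simp) h1
      omega)
    obtain ⟨a, ha⟩ := vx_eq.1 h4
    let w : NormalWord.ReducedWord G A B := ⟨b, (e, b') :: L, h2⟩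
    have hw : w.prod φ = of a := by
      have h5 : w.prod φ = g⁻¹ * (g * of b * t ^ (e : ℤ) * of b' * lprod φ L) := by
        simp only [w, NormalWord.ReducedWord.prod, List.map_cons, List.prod_cons, lprod,
          mul_assoc, inv_mul_cancel_left]
      rw [h5, ha, inv_mul_cancel_left]
    have h6 := ReducedWord.toList_eq_nil_of_mem_of_range (φ := φ) w (by rw [hw]; exact ⟨a, rfl⟩)
    exact List.cons_ne_nil _ _ h6

theorem hT_isTree : (hT φ).IsTree := ⟨hT_connected, hT_isAcyclic⟩

theorem stab_vx {g x : HNNExtension G A B φ} :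
    x • (vx g : HV φ) = vx g ↔ ∃ b : G, x = g * of b * g⁻¹ := by
  have h1 : x • (vx g : HV φ) = vx (x * g) := rfl
  rw [h1, eq_comm, vx_eq]
  constructor
  · rintro ⟨b, hb⟩
    exact ⟨b, by rw [← hb, mul_inv_cancel_right]⟩
  · rintro ⟨b, rfl⟩
    exact ⟨b, by rw [inv_mul_cancel_right]⟩

end Pool.Agent.HN
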