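import Mathlib

/-!
# Roots in nilpotent groups
-/

set_option autoImplicit false

namespace Pool.Agent.HN

open Subgroup
open scoped commutatorElement

/-- A power of `x` is in `H`. -/
def HasPow {G : Type} [Group G] (H : Subgroup G) (x : G) : Prop := ∃ n : ℕ, 0 < n ∧ x ^ n ∈ H

theorem HasPow.of_mem {G : Type} [Group G] {H : Subgroup G} {x : G} (h : x ∈ H) : HasPow H x :=
  ⟨1, one_pos, by rwa [pow_one]⟩

theorem HasPow.mono {G : Type} [Group G] {H K : Subgroup G} (hHK : H ≤ K) {x : G}
    (h : HasPow H x) : HasPow K x := by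
  obtain ⟨n, hn, h⟩ := h
  exact ⟨n, hn, hHK h⟩

theorem HasPow.inv {G : Type} [Group G] {H : Subgroup G} {x : G} (h : HasPow H x) :
    HasPow H x⁻¹ := by
  obtain ⟨n, hn, h⟩ := h
  exact ⟨n, hn, by rw [inv_pow]; exact H.inv_mem h⟩

theorem HasPow.mul {G : Type} [Group G] {H : Subgroup G} {x y : G} (hx : HasPow H x)
    (hy : HasPow H y) (hxy : Commute x y) : HasPow H (x * y) := by
  obtain ⟨m, hm, h1⟩ := hx
  obtain ⟨n, hn, h2⟩ := hy
  refine ⟨m * n, Nat.mul_pos hm hn, ?_⟩
  rw [hxy.mul_pow, pow_mul, mul_comm m n, pow_mul]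
  exact H.mul_mem (H.pow_mem h1 n) (H.pow_mem h2 m)

/-- the power of a commutator which commutes with its entries -/
theorem comm_pow_left {G : Type} [Group G] {x y : G} (h : Commute ⁅x, y⁆ x) (k : ℕ) :
    ⁅x ^ k, y⁆ = ⁅x, y⁆ ^ k := by
  have h1 : y * x * y⁻¹ = ⁅x, y⁆⁻¹ * x := by
    rw [commutatorElement_def]
    group
  have h2 : y * x ^ k * y⁻¹ = ⁅x, y⁆⁻¹ ^ k * x ^ k := by
    rw [← conj_pow, h1, (h.inv_left).mul_pow]
  have h3 : ⁅x ^ k, y⁆ = x ^ k * (y * x ^ k * y⁻¹)⁻¹ := by
    rw [commutatorElement_def]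
    group
  rw [h3, h2, mul_inv_rev, mul_inv_cancel_left, inv_pow, inv_inv]

theorem comm_pow_right {G : Type} [Group G] {x y : G} (h : Commute ⁅x, y⁆ y) (k : ℕ) :
    ⁅x, y ^ k⁆ = ⁅x, y⁆ ^ k := by
  have h1 : Commute ⁅y, x⁆ y := by
    rw [← commutatorElement_inv x y]
    exact h.inv_left
  have h2 := comm_pow_left h1 k
  rw [← commutatorElement_inv (y ^ k) x, h2, ← commutatorElement_inv x y, inv_pow, inv_inv]

/-- In a nilpotent group which is generated by elements with powers in `H` all elements have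
powers in `H`. -/
theorem hasPow_of_closure (c : ℕ) : ∀ (G : Type) [Group G],
    (⊤ : Subgroup G).lowerCentralSeries c = ⊥ → ∀ (H : Subgroup G) (S : Set G),
    closure S = ⊤ → (∀ s ∈ S, HasPow H s) → ∀ g, HasPow H g := by
  induction c with
  | zero =>
    intro G _ hc H S _ _ g
    have h1 : g ∈ (⊥ : Subgroup G) := by
      rw [← hc]
      exact mem_top g
    rw [mem_bot] at h1
    rw [h1]
    exact HasPow.of_mem H.one_mem
  | succ c ih =>
    intro G _ hc H S hS hSH g
    obtain ⟨L, hL⟩ : ∃ L, L = (⊤ : Subgroup G).lowerCentralSeries c := ⟨_, rfl⟩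
    have hLn : L.Normal := by
      rw [hL]
      infer_instance
    have hcen : ∀ z ∈ L, ∀ x : G, Commute z x := by
      intro z hz x
      have h1 : ⁅z, x⁆ ∈ (⊤ : Subgroup G).lowerCentralSeries (c + 1) := by
        rw [Subgroup.lowerCentralSeries_succ, ← hL]
        exact commutator_mem_commutator hz (mem_top x)
      rw [hc, mem_bot] at h1
      exact commutatorElement_eq_one_iff_commute.1 h1
    -- the quotient
    have hq : ∀ x : G, ∃ k : ℕ, 0 < k ∧ ∃ h ∈ H, ∃ z ∈ L, x ^ k = h * z := by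
      intro x
      have hQ : (⊤ : Subgroup (G ⧸ L)).lowerCentralSeries c = ⊥ := by
        have h1 := map_lowerCentralSeries (S := (⊤ : Subgroup G)) (QuotientGroup.mk' L) c
        rw [← hL, Subgroup.map_top_of_surjective _ (QuotientGroup.mk'_surjective L)] at h1
        rw [← h1, eq_bot_iff]
        rintro _ ⟨z, hz, rfl⟩
        rw [mem_bot]
        exact (QuotientGroup.eq_one_iff z).2 hz
      have hcl : closure (QuotientGroup.mk' L '' S) = ⊤ := by
        rw [← MonoidHom.map_closure, hS,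
          Subgroup.map_top_of_surjective _ (QuotientGroup.mk'_surjective L)]
      obtain ⟨k, hk, h2⟩ := ih (G ⧸ L) hQ (H.map (QuotientGroup.mk' L)) _ hcl (by
        rintro _ ⟨s, hs, rfl⟩
        obtain ⟨n, hn, h3⟩ := hSH s hs
        exact ⟨n, hn, by rw [← map_pow]; exact mem_map_of_mem _ h3⟩) (QuotientGroup.mk' L x)
      obtain ⟨h, hh, h3⟩ := h2
      rw [← map_pow] at h3
      refine ⟨k, hk, h, hh, h⁻¹ * x ^ k, ?_, by rw [mul_inv_cancel_left]⟩
      exact QuotientGroup.eq.1 h3
    -- generators of `L`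
    have hLH : ∀ z ∈ L, HasPow H z := by
      have key : ∀ W : Set G, (∀ w ∈ W, w ∈ L) → (∀ w ∈ W, HasPow H w) → ∀ z ∈ closure W,
          HasPow H z := by
        intro W hWL hWH z hz
        have hle : closure W ≤ L := (closure_le L).2 hWL
        refine closure_induction (p := fun z _ => HasPow H z) (fun w hw => hWH w hw)
          (HasPow.of_mem H.one_mem) ?_ ?_ hz
        · intro x y hx hy h1 h2
          exact h1.mul h2 (hcen x (hle hx) y)
        · intro x _ h1
          exact h1.inv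
      rcases c with _ | c
      · intro z _
        have hL' : L = ⊤ := hL
        refine key S (fun w _ => by rw [hL']; exact mem_top w) hSH z (by rw [hS]; exact mem_top z)
      · intro z hz
        rw [hL, Subgroup.mem_lowerCentralSeries_succ_iff] at hz
        refine key _ ?_ ?_ z hz
        · rintro _ ⟨p, hp, q, hq', rfl⟩
          rw [hL, Subgroup.lowerCentralSeries_succ]
          exact commutator_mem_commutator hp hq'
        · rintro _ ⟨p, hp, q, hq', rfl⟩
          have hw : ⁅p, q⁆ ∈ L := by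
            rw [hL, Subgroup.lowerCentralSeries_succ]
            exact commutator_mem_commutator hp hq'
          obtain ⟨k, hk, h1, hh1, z1, hz1, e1⟩ := hq p
          obtain ⟨l, hl, h2, hh2, z2, hz2, e2⟩ := hq q
          refine ⟨k * l, Nat.mul_pos hk hl, ?_⟩
          have e3 : ⁅p ^ k, q ^ l⁆ = ⁅p, q⁆ ^ (k * l) := by
            have e4 := comm_pow_left (hcen _ hw p) k
            rw [pow_mul, ← e4]
            refine comm_pow_right ?_ l
            rw [e4]
            exact (hcen _ hw q).pow_left k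
          rw [← e3, e1, e2]
          have e5 : ⁅h1 * z1, h2 * z2⁆ = ⁅h1, h2⁆ := by
            have c1 := fun x => (hcen z1 hz1 x).eq
            have c2 := fun x => (hcen z2 hz2 x).eq
            rw [commutatorElement_def, commutatorElement_def, mul_inv_rev, mul_inv_rev]
            have c3 : h1 * z1 * (h2 * z2) = h1 * h2 * (z1 * z2) := by
              rw [mul_assoc, ← mul_assoc z1, c1 h2]
              simp only [mul_assoc]
            have c4 : z1⁻¹ * h1⁻¹ * (z2⁻¹ * h2⁻¹) = (z1 * z2)⁻¹ * (h1⁻¹ * h2⁻¹) := by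
              have c5 : h1⁻¹ * z2⁻¹ = z2⁻¹ * h1⁻¹ := by
                rw [← mul_inv_rev, ← mul_inv_rev, c2]
              have c6 : z1⁻¹ * z2⁻¹ = (z1 * z2)⁻¹ := by
                rw [c1 z2, mul_inv_rev]
              rw [← c6]
              calc z1⁻¹ * h1⁻¹ * (z2⁻¹ * h2⁻¹) = z1⁻¹ * (h1⁻¹ * z2⁻¹) * h2⁻¹ := by
                    simp only [mul_assoc]
                _ = _ := by rw [c5]; simp only [mul_assoc]
            rw [mul_assoc (h1 * z1 * (h2 * z2)), c4, c3]
            have c7 : ∀ x : G, (z1 * z2) * ((z1 * z2)⁻¹ * x) = x := fun x => mul_inv_cancel_left _ x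
            rw [mul_assoc (h1 * h2), c7]
            simp only [mul_assoc]
          rw [e5, commutatorElement_def]
          exact H.mul_mem (H.mul_mem (H.mul_mem hh1 hh2) (H.inv_mem hh1)) (H.inv_mem hh2)
    obtain ⟨k, hk, h, hh, z, hz, e⟩ := hq g
    obtain ⟨l, hl, h1⟩ := hLH z hz
    refine ⟨k * l, Nat.mul_pos hk hl, ?_⟩
    rw [pow_mul, e, (hcen z hz h).symm.mul_pow]
    exact H.mul_mem (H.pow_mem hh l) h1

end Pool.Agent.HN
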