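import Pool.Agent.Lib.MP_98022b_cc.MedMain
import Pool.Agent.Lib.MP_140312_al_SG.Tree

/-!
# Trees as median graphs, and paths with fixed ends
-/

set_option autoImplicit false

open scoped Pointwise

namespace Pool.Agent.HN

open SimpleGraph
open Pool.Agent.CCC (IsMedianGraph IsomCube IsCubeSet)
open Pool.Agent.Lib.MP_140312_al_SG

section trees

variable {V : Type} {T : SimpleGraph V}

/-- Trees are median graphs. -/
theorem isMedianGraph_of_tree (hT : T.IsTree) : IsMedianGraph T := by
  refine ⟨hT.connected, fun x y z => ?_⟩
  obtain ⟨m, h1, h2, h3⟩ := tree_median hT x y z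
  exact ⟨m, ⟨h1, h2, h3⟩, fun m' h' => tree_median_unique hT h'.1 h'.2.1 h'.2.2 h1 h2 h3⟩

private theorem ham_one {n : ℕ} (x : Fin n → Bool) (i : Fin n) (b : Bool) (h : x i ≠ b) :
    hammingDist x (Function.update x i b) = 1 := by
  have h1 : (Finset.univ.filter fun k => x k ≠ Function.update x i b k) = {i} := by
    ext k
    by_cases hk : k = i
    · subst hk
      simp [h]
    · simp [hk]
  show (Finset.univ.filter fun k => x k ≠ Function.update x i b k).card = 1
  rw [h1, Finset.card_singleton]

/-- The isometric cubes of a tree have dimension at most one. -/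
theorem isomCube_le_one (hT : T.IsTree) (n : ℕ) (e : (Fin n → Bool) → V)
    (he : IsomCube T n e) : n ≤ 1 := by
  by_contra h
  have h0 : 1 < n := not_le.1 h
  obtain ⟨i, hi⟩ : ∃ i : Fin n, i = ⟨0, by omega⟩ := ⟨_, rfl⟩
  obtain ⟨j, hj⟩ : ∃ j : Fin n, j = ⟨1, h0⟩ := ⟨_, rfl⟩
  have hij : i ≠ j := by
    rw [hi, hj]
    intro h1
    simpa using congrArg Fin.val h1
  let z : Fin n → Bool := fun _ => false
  let a : Fin n → Bool := Function.update z i true
  let b : Fin n → Bool := Function.update z j true
  let c : Fin n → Bool := Function.update a j true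
  have hc : c = Function.update b i true := by
    show Function.update (Function.update z i true) j true = _
    rw [Function.update_comm hij]
  have h1 : T.dist (e z) (e a) = 1 := by
    rw [he]
    exact ham_one z i true (by simp [z])
  have h2 : T.dist (e z) (e b) = 1 := by
    rw [he]
    exact ham_one z j true (by simp [z])
  have h3 : T.dist (e a) (e c) = 1 := by
    rw [he]
    exact ham_one a j true (by simp [a, z, Function.update_of_ne hij.symm])
  have h4 : T.dist (e b) (e c) = 1 := by
    rw [he, hc]
    exact ham_one b i true (by simp [b, z, Function.update_of_ne hij])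
  have h5 : T.dist (e z) (e c) = 2 := by
    rw [he]
    have h6 : (Finset.univ.filter fun k => z k ≠ c k) = {i, j} := by
      ext k
      by_cases hki : k = i
      · subst hki
        simp [z, c, a, Function.update_of_ne hij]
      · by_cases hkj : k = j
        · subst hkj
          simp [z, c]
        · simp [z, c, a, hki, hkj]
    show (Finset.univ.filter fun k => z k ≠ c k).card = 2
    rw [h6, Finset.card_pair hij]
  have h7 : e a = e b := tree_point_unique hT (a := e z) (b := e c) (by omega) (by omega)
    (by omega)
  have h8 : hammingDist a b = 0 := by rw [← he, h7, SimpleGraph.dist_self]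
  have h9 : a = b := hammingDist_eq_zero.1 h8
  have h10 := congrFun h9 i
  simp [a, b, z, Function.update_of_ne hij] at h10

/-- The distances in a cube of a tree are at most one. -/
theorem dist_cube_le (hT : T.IsTree) {C : Set V} (hC : IsCubeSet T C) {x y : V} (hx : x ∈ C)
    (hy : y ∈ C) : T.dist x y ≤ 1 := by
  obtain ⟨n, e, he, rfl⟩ := hC
  obtain ⟨s, rfl⟩ := hx
  obtain ⟨t, rfl⟩ := hy
  rw [he]
  refine (hammingDist_le_card_fintype).trans ?_
  rw [Fintype.card_fin]
  exact isomCube_le_one hT n e he

end trees

section fix

variable {L V : Type} [Group L] [MulAction L V] {T : SimpleGraph V}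

/-- the action on the graph -/
private def gHom (hadj : ∀ (g : L) u v, T.Adj u v → T.Adj (g • u) (g • v)) (g : L) : T →g T where
  toFun v := g • v
  map_rel' h := hadj g _ _ h

private theorem map_eq_self {α : Type} {f : α → α} : ∀ {l : List α}, l.map f = l →
    ∀ z ∈ l, f z = z
  | [], _, z, hz => by simp at hz
  | a :: l, h, z, hz => by
    rw [List.map_cons, List.cons.injEq] at h
    rcases List.mem_cons.1 hz with rfl | hz
    · exact h.1
    · exact map_eq_self h.2 z hz

/-- An element which fixes the ends of a path fixes the path. -/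
theorem smul_path (hT : T.IsTree) (hadj : ∀ (g : L) u v, T.Adj u v → T.Adj (g • u) (g • v))
    {g : L} {x y : V} (hx : g • x = x) (hy : g • y = y) (p : T.Walk x y) (hp : p.IsPath) :
    ∀ z ∈ p.support, g • z = z := by
  have hinj : Function.Injective (gHom hadj g) := MulAction.injective g
  have hx' : gHom hadj g x = x := hx
  have hy' : gHom hadj g y = y := hy
  have h1 : ((p.map (gHom hadj g)).copy hx' hy').IsPath := by
    rw [Walk.isPath_copy]
    exact Walk.IsPath.map hinj hp
  have h2 : (⟨_, h1⟩ : T.Path x y) = ⟨p, hp⟩ :=
    (IsAcyclic.subsingleton_path hT.isAcyclic x y).elim _ _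
  have h3 : ((p.map (gHom hadj g)).copy hx' hy').support = p.support :=
    congrArg (fun q : T.Path x y => (q : T.Walk x y).support) h2
  rw [Walk.support_copy, Walk.support_map] at h3
  exact map_eq_self h3

end fix

end Pool.Agent.HN
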